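import Pool.Agent.LevelLat.Basic

/-!
# The block exchange pattern, with the relation of the inner system
-/

namespace LevelPoly

open LevelLat

/-- the relation of the pattern: same block, related inside the block -/
def PJ (M Q g : ℕ) (J : ℕ → ℕ → Prop) (i j : ℕ) : Prop :=
  ∃ k < M, Q + k * g ≤ i ∧ i < Q + k * g + g ∧ Q + k * g ≤ j ∧ j < Q + k * g + g ∧
    J (i - (Q + k * g)) (j - (Q + k * g))

theorem copies {g T D : ℕ} {J : ℕ → ℕ → Prop} (h : HasZig g T D J) (M : ℕ) :
    HasZig (M * g) (M * T) D (PJ M 0 g J) := by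
  induction M with
  | zero =>
    simp only [Nat.zero_mul]
    exact hasZig_zero D _
  | succ M ih =>
    have := (ih.sum h).mono le_rfl (J' := PJ (M + 1) 0 g J) ?_
    · rwa [Nat.succ_mul, Nat.succ_mul]
    · rintro i j hi hj (⟨_, _, k, hk, h1⟩ | ⟨h1, h2, h3⟩)
      · exact ⟨k, by omega, h1⟩
      · exact ⟨M, by omega, by omega, by omega, by omega, by omega, by simpa using h3⟩

/-- the block exchange pattern: `Q` single exchanges, `M` copies of a system, `Q` single
exchanges -/
theorem pattern {g T D : ℕ} {J : ℕ → ℕ → Prop} (h : HasZig g T D J) (hD : 1 ≤ D)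
    (M Q : ℕ) : HasZig (Q + M * g + Q) (Q + M * T + Q) D (PJ M Q g J) := by
  have h0 := (hasZig_singles Q).mono hD (J' := fun _ _ => False) (fun _ _ _ _ h => h)
  refine ((h0.sum (copies h M)).sum h0).mono le_rfl ?_
  rintro i j hi hj (⟨h1, h2, ⟨_, _, h3⟩ | ⟨h3, h4, k, hk, h5, h6, h7, h8, h9⟩⟩ | ⟨_, _, h3⟩)
  · exact h3.elim
  · refine ⟨k, hk, by omega, by omega, by omega, by omega, ?_⟩
    have e1 : i - Q - (0 + k * g) = i - (Q + k * g) := by omega
    have e2 : j - Q - (0 + k * g) = j - (Q + k * g) := by omega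
    rwa [e1, e2] at h9
  · exact h3.elim

end LevelPoly
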