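import Pool.Agent.LevelPoly.Comp
import Pool.Agent.LevelPoly.Pattern

/-!
# Bundles of lines with several speeds
-/

namespace LevelPoly

open LevelLat

section aux

theorem card_lt {E : Type} [Fintype E] {h : E → ℕ} (hi : Function.Injective h)
    (hlt : ∀ e, h e < Fintype.card E) {r : ℕ} (hr : r ≤ Fintype.card E) :
    ∑ e : E, (if h e < r then (1 : ℤ) else 0) = r := by
  rw [Finset.sum_boole]
  congr 1
  have : (Finset.univ.filter (fun e => h e < r)).image h = Finset.range r := by
    ext i
    simp only [Finset.mem_image, Finset.mem_filter, Finset.mem_univ, true_and, Finset.mem_range]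
    constructor
    · rintro ⟨e, h1, rfl⟩
      exact h1
    · intro hir
      obtain ⟨e, he⟩ := surj_of_inj hi hlt (r := i) (by omega)
      exact ⟨e, by omega, he⟩
  rw [← Finset.card_image_of_injective _ hi, this, Finset.card_range]

theorem exists_cut {L : ℕ} {f : Fin L → ℕ} (hf : ∀ y y', y < y' → f y < f y') (r : ℕ) :
    ∃ c ≤ L, ∀ z : Fin L, f z < r ↔ (z : ℕ) < c := by
  classical
  by_cases h : ∃ n, ∃ hn : n < L, r ≤ f ⟨n, hn⟩
  · refine ⟨Nat.find h, ?_, ?_⟩
    · obtain ⟨h1, h2⟩ := Nat.find_spec h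
      exact h1.le
    · intro z
      constructor
      · intro hz
        by_contra hc
        push Not at hc
        obtain ⟨h1, h2⟩ := Nat.find_spec h
        rcases Nat.eq_or_lt_of_le hc with h3 | h3
        · have : (⟨Nat.find h, h1⟩ : Fin L) = z := Fin.ext h3
          rw [this] at h2
          omega
        · have := hf ⟨Nat.find h, h1⟩ z (by rw [Fin.lt_def]; exact h3)
          omega
      · intro hz
        have := Nat.find_min h hz
        push Not at this
        exact this z.2
  · push Not at h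
    exact ⟨L, le_rfl, fun z => ⟨fun _ => z.2, fun _ => h z z.2⟩⟩

end aux

variable {Q : Type} [Fintype Q] {L C : ℕ}

/-- Lattice data: tracks `Q` with speeds `s`, contact lengths `A`, phases `0 ≤ y < L`, and the
vertical order `h` of the roles. -/
structure Lat (L q₀ σ D : ℕ) (s : Q → ℤ) (A : Q → Q → ℤ) (h : Q × Fin L → ℕ) : Prop where
  L0 : 0 < L
  inj : Function.Injective h
  lt : ∀ e, h e < Fintype.card Q * L
  sum : ∑ q, s q = 0
  bd : ∀ l < D, ∀ q, |s q * l| ≤ q₀ * L
  bd' : ∀ q, |s q * D| ≤ σ * L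
  A0 : ∀ q q', 0 < A q q'
  sA : ∀ q q', s q' < s q → 2 * A q q' ≤ s q - s q'
  sd : ∀ q q', s q = s q' → q = q'
  o1 : ∀ q q' (y y' : Fin L), s q' < s q → h (q', y') < h (q, y) →
    A q q' < ((y : ℕ) : ℤ) - (y' : ℕ) + (s q - s q')
  o2 : ∀ q q' (y y' : Fin L), s q' < s q → h (q, y) < h (q', y') →
    ((y : ℕ) : ℤ) - (y' : ℕ) < A q q'
  o3 : ∀ q (y y' : Fin L), y < y' → h (q, y) < h (q, y')

/-- `q` may overtake `q'`, `d` the difference of the positions -/
def Rev (s : Q → ℤ) (A : Q → Q → ℤ) (q q' : Q) (d : ℤ) : Prop :=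
  s q' < s q ∧ A q q' < d + (s q - s q')

/-- the relation of the ranks of roles which may change their order -/
def JL (g : ℕ) (s : Q → ℤ) (A : Q → Q → ℤ) (h : Q × Fin L → ℕ) (i j : ℕ) : Prop :=
  ∃ e e' : Q × Fin L, h e < h e' ∧ Rev s A e.1 e'.1 (((e.2 : ℕ) : ℤ) - (e'.2 : ℕ)) ∧
    ((i = h e ∧ j = h e') ∨ (i = g - 1 - h e ∧ j = g - 1 - h e'))

/-- position of a line at the clock value `l` -/
def px (s : Q → ℤ) (l : ℕ) (e : Q × Fin (C * L)) : ℤ := (e.2 : ℕ) + s e.1 * l

/-- phase inside the block -/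
def rl (hL : 0 < L) (x : ℤ) : Fin L :=
  ⟨(x % L).toNat, by
    have h1 := Int.emod_nonneg x (b := (L : ℤ)) (by omega)
    have h2 := Int.emod_lt_of_pos x (b := (L : ℤ)) (by omega)
    omega⟩

theorem rl_cast (hL : 0 < L) (x : ℤ) : (((rl hL x : Fin L) : ℕ) : ℤ) = x % L := by
  have h1 := Int.emod_nonneg x (b := (L : ℤ)) (by omega)
  unfold rl
  dsimp only
  omega

/-- the vertical order of the bundle at the clock value `l` -/
def key (hL : 0 < L) (s : Q → ℤ) (h : Q × Fin L → ℕ) (l : ℕ) (e : Q × Fin (C * L)) : ℤ :=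
  (px s l e / L) * ((Fintype.card Q * L : ℕ) : ℤ) + h (e.1, rl hL (px s l e))

section key

variable {q₀ σ D : ℕ} {s : Q → ℤ} {A : Q → Q → ℤ} {h : Q × Fin L → ℕ}
  (hA : Lat L q₀ σ D s A h)

include hA

theorem key_lt_iff {l : ℕ} {e e' : Q × Fin (C * L)} :
    key hA.L0 s h l e < key hA.L0 s h l e' ↔ px s l e / L < px s l e' / L ∨
      (px s l e / L = px s l e' / L ∧
        h (e.1, rl hA.L0 (px s l e)) < h (e'.1, rl hA.L0 (px s l e'))) := by
  have h1 := hA.lt (e.1, rl hA.L0 (px s l e))
  have h2 := hA.lt (e'.1, rl hA.L0 (px s l e'))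
  unfold key
  set g := Fintype.card Q * L
  set F := px s l e / L
  set F' := px s l e' / L
  constructor
  · intro hlt
    rcases lt_trichotomy F F' with h3 | h3 | h3
    · exact Or.inl h3
    · rw [h3] at hlt
      exact Or.inr ⟨h3, by omega⟩
    · exfalso
      have : (F' + 1) * (g : ℤ) ≤ F * g := mul_le_mul_of_nonneg_right (by omega) (by omega)
      rw [add_mul, one_mul] at this
      omega
  · rintro (h3 | ⟨h3, h4⟩)
    · have : (F + 1) * (g : ℤ) ≤ F' * g := mul_le_mul_of_nonneg_right (by omega) (by omega)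
      rw [add_mul, one_mul] at this
      omega
    · rw [h3]
      omega

theorem div_lt_of {x x' : ℤ} (h' : x / L < x' / L) : x < x' := by
  by_contra hc
  push Not at hc
  have := Int.ediv_le_ediv (c := (L : ℤ)) (by have := hA.L0; omega) hc
  omega

omit hA in
theorem mod_sub {x x' : ℤ} (h' : x / L = x' / L) : x - x' = x % L - x' % L := by
  have h1 := Int.mul_ediv_add_emod x (L : ℤ)
  have h2 := Int.mul_ediv_add_emod x' (L : ℤ)
  rw [h'] at h1
  omega

theorem key_inj (l : ℕ) : Function.Injective (key (C := C) hA.L0 s h l) := by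
  intro e e' heq
  have h1 : ¬ key hA.L0 s h l e < key hA.L0 s h l e' := by omega
  have h2 : ¬ key hA.L0 s h l e' < key hA.L0 s h l e := by omega
  rw [key_lt_iff hA] at h1 h2
  have h3 : px s l e / L = px s l e' / L := by
    rcases lt_trichotomy (px s l e / L) (px s l e' / L) with h | h | h
    · exact absurd (Or.inl h) h1
    · exact h
    · exact absurd (Or.inl h) h2
  have h4 : h (e.1, rl hA.L0 (px s l e)) = h (e'.1, rl hA.L0 (px s l e')) := by
    rcases lt_trichotomy (h (e.1, rl hA.L0 (px s l e))) (h (e'.1, rl hA.L0 (px s l e')))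
      with h' | h' | h'
    · exact absurd (Or.inr ⟨h3, h'⟩) h1
    · exact h'
    · exact absurd (Or.inr ⟨h3.symm, h'⟩) h2
  have h5 := hA.inj h4
  have h6 : e.1 = e'.1 := (Prod.mk.inj h5).1
  have h7 : rl hA.L0 (px s l e) = rl hA.L0 (px s l e') := (Prod.mk.inj h5).2
  have h8 : px s l e % L = px s l e' % L := by
    rw [← rl_cast hA.L0, ← rl_cast hA.L0, h7]
  have h9 := mod_sub h3
  have h10 : px s l e = px s l e' := by omega
  unfold px at h10
  rw [h6] at h10
  ext1
  · exact h6
  · apply Fin.ext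
    omega

/-- if the faster one is above, it is far above at the next clock value -/
theorem k1 {l : ℕ} {e e' : Q × Fin (C * L)} (hs : s e'.1 < s e.1)
    (hk : key hA.L0 s h l e' < key hA.L0 s h l e) :
    A e.1 e'.1 < px s l e - px s l e' + (s e.1 - s e'.1) := by
  rw [key_lt_iff hA] at hk
  rcases hk with hk | ⟨hk1, hk2⟩
  · have h1 := div_lt_of hA hk
    have h2 := hA.sA e.1 e'.1 hs
    have h3 := hA.A0 e.1 e'.1
    omega
  · have := hA.o1 _ _ _ _ hs hk2
    rw [rl_cast, rl_cast] at this
    have h9 := mod_sub hk1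
    omega

/-- if the faster one is below, it is not far above -/
theorem k2 {l : ℕ} {e e' : Q × Fin (C * L)} (hs : s e'.1 < s e.1)
    (hk : key hA.L0 s h l e < key hA.L0 s h l e') :
    px s l e - px s l e' < A e.1 e'.1 := by
  rw [key_lt_iff hA] at hk
  rcases hk with hk | ⟨hk1, hk2⟩
  · have h1 := div_lt_of hA hk
    have h3 := hA.A0 e.1 e'.1
    omega
  · have := hA.o2 _ _ _ _ hs hk2
    rw [rl_cast, rl_cast] at this
    have h9 := mod_sub hk1
    omega

/-- lines on the same track do not change their order -/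
theorem k3 {l : ℕ} {e e' : Q × Fin (C * L)} (hq : e.1 = e'.1) (hy : e.2 < e'.2) :
    key hA.L0 s h l e < key hA.L0 s h l e' := by
  rw [key_lt_iff hA]
  have hlt : px s l e < px s l e' := by
    unfold px
    rw [hq]
    rw [Fin.lt_def] at hy
    omega
  have h1 := Int.ediv_le_ediv (c := (L : ℤ)) (by have := hA.L0; omega) hlt.le
  rcases lt_or_eq_of_le h1 with h2 | h2
  · exact Or.inl h2
  · right
    refine ⟨h2, ?_⟩
    rw [hq]
    apply hA.o3
    rw [Fin.lt_def]
    have h3 := rl_cast hA.L0 (px s l e)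
    have h4 := rl_cast hA.L0 (px s l e')
    have h9 := mod_sub h2
    omega

omit hA [Fintype Q] in
theorem px_step (l l' : ℕ) (e e' : Q × Fin (C * L)) :
    px s l' e - px s l' e' = px s l e - px s l e' + (s e.1 - s e'.1) * ((l' : ℤ) - l) := by
  unfold px
  ring

omit hA [Fintype Q] in
/-- displacement of the faster one relative to the slower one -/
theorem px_le {l l' : ℕ} (hl : l < l') {e e' : Q × Fin (C * L)} (hs : s e'.1 < s e.1) :
    px s l e - px s l e' + (s e.1 - s e'.1) ≤ px s l' e - px s l' e' := by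
  rw [px_step l l']
  have : (s e.1 - s e'.1) * 1 ≤ (s e.1 - s e'.1) * ((l' : ℤ) - l) :=
    mul_le_mul_of_nonneg_left (by omega) (by omega)
  omega

/-- if the slower one is below at the start, it stays below -/
theorem stay {l : ℕ} {e e' : Q × Fin (C * L)} (hs : s e.1 ≤ s e'.1)
    (h0 : key hA.L0 s h 0 e < key hA.L0 s h 0 e') :
    key hA.L0 s h l e < key hA.L0 s h l e' := by
  have hne : e ≠ e' := by
    rintro rfl
    exact lt_irrefl _ h0
  rcases lt_or_eq_of_le hs with hs | hs
  · rcases Nat.eq_zero_or_pos l with hl | hl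
    · rw [hl]
      exact h0
    · by_contra hc
      have h1 : key hA.L0 s h l e' < key hA.L0 s h l e := by
        rcases lt_trichotomy (key hA.L0 s h l e) (key hA.L0 s h l e') with h2 | h2 | h2
        · exact absurd h2 hc
        · exact absurd (key_inj hA l h2) hne
        · exact h2
      have h2 := k2 hA hs h1
      have h3 := k1 hA hs h0
      have h4 := px_le hl hs
      omega
  · have hq := hA.sd _ _ hs
    apply k3 hA hq
    by_contra hc
    push Not at hc
    rcases lt_or_eq_of_le hc with h1 | h1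
    · have := k3 hA (l := 0) hq.symm h1
      omega
    · apply hne
      ext1
      · exact hq
      · exact h1.symm

end key

end LevelPoly
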