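import Mathlib

/-!
# Ranks
-/

namespace LevelPoly

section rank

variable {E : Type} [Fintype E] {H : E → ℤ}

/-- the number of elements below `e` -/
noncomputable def rk (H : E → ℤ) (e : E) : ℕ :=
  (Finset.univ.filter (fun e' => H e' < H e)).card

theorem rk_mono {e e' : E} (h : H e ≤ H e') : rk H e ≤ rk H e' := by
  refine Finset.card_le_card ?_
  intro z hz
  simp only [Finset.mem_filter, Finset.mem_univ, true_and] at hz ⊢
  omega

theorem rk_strict {e e' : E} (h : H e < H e') : rk H e < rk H e' := by
  refine Finset.card_lt_card ?_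
  rw [Finset.ssubset_iff_of_subset]
  · exact ⟨e, by simpa using h, by simp⟩
  · intro z hz
    simp only [Finset.mem_filter, Finset.mem_univ, true_and] at hz ⊢
    omega

theorem rk_lt_iff {e e' : E} : rk H e < rk H e' ↔ H e < H e' := by
  constructor
  · intro h
    by_contra hc
    have := rk_mono (H := H) (e := e') (e' := e) (by omega)
    omega
  · exact rk_strict

theorem rk_lt_card (e : E) : rk H e < Fintype.card E := by
  refine Finset.card_lt_card ?_
  rw [Finset.ssubset_iff_of_subset (Finset.subset_univ _)]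
  exact ⟨e, Finset.mem_univ _, by simp⟩

theorem rk_inj (hH : Function.Injective H) {e e' : E} (h : rk H e = rk H e') : e = e' := by
  apply hH
  rcases lt_trichotomy (H e) (H e') with h1 | h1 | h1
  · have := rk_strict h1
    omega
  · exact h1
  · have := rk_strict h1
    omega

theorem surj_of_inj {f : E → ℕ} (hf : Function.Injective f) (hlt : ∀ e, f e < Fintype.card E)
    {r : ℕ} (hr : r < Fintype.card E) : ∃ e, f e = r := by
  let F : E → Fin (Fintype.card E) := fun e => ⟨f e, hlt e⟩
  have hF : Function.Injective F := by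
    intro e e' h
    exact hf (congrArg Fin.val h)
  have hb : Function.Bijective F := by
    rw [Fintype.bijective_iff_injective_and_card]
    exact ⟨hF, by simp⟩
  obtain ⟨e, he⟩ := hb.2 ⟨r, hr⟩
  exact ⟨e, congrArg Fin.val he⟩

theorem rk_surj (hH : Function.Injective H) {r : ℕ} (hr : r < Fintype.card E) :
    ∃ e, rk H e = r :=
  surj_of_inj (fun _ _ h => rk_inj hH h) rk_lt_card hr

end rank

/-- the number of elements of `Fin β` below an integer -/
theorem sum_lt {β : ℕ} {c : ℤ} (h0 : 0 ≤ c) (hc : c ≤ β) :
    ∑ j : Fin β, (if ((j : ℕ) : ℤ) < c then (1 : ℤ) else 0) = c := by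
  obtain ⟨c, rfl⟩ := Int.eq_ofNat_of_zero_le h0
  have hc' : c ≤ β := by exact_mod_cast hc
  have h1 : ∀ j : Fin β, (if ((j : ℕ) : ℤ) < ((c : ℕ) : ℤ) then (1 : ℤ) else 0) =
      ((if (j : ℕ) < c then 1 else 0 : ℕ) : ℤ) := by
    intro j
    by_cases h : (j : ℕ) < c
    · rw [if_pos (by exact_mod_cast h), if_pos h]
      rfl
    · rw [if_neg (by exact_mod_cast h), if_neg h]
      rfl
  rw [Finset.sum_congr rfl (fun j _ => h1 j), ← Nat.cast_sum,
    Fin.sum_univ_eq_sum_range (fun j => if j < c then 1 else 0) β, Finset.sum_ite,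
    Finset.sum_const_zero, add_zero, Finset.sum_const, smul_eq_mul, mul_one]
  rw [show (Finset.range β).filter (fun j => j < c) = Finset.range c by
    ext j; simp only [Finset.mem_filter, Finset.mem_range]; omega]
  simp

end LevelPoly
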