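import Pool.Agent.LevelLat.Basic
import Pool.Agent.LevelPoly.Rank

/-!
# Composition of block exchange systems through bundles: the abstract form
-/

namespace LevelPoly

open LevelLat

section role

variable {E : Type} [Fintype E] {H : ℕ → E → ℤ}

/-- distance from the gap in the bundle, for the bundle going up (`false`) and the bundle going
down (`true`) -/
noncomputable def R (H : ℕ → E → ℤ) (b : Bool) (l : ℕ) (e : E) : ℕ :=
  if b then rk (H l) e else Fintype.card E - 1 - rk (H l) e

theorem R_lt (b : Bool) (l : ℕ) (e : E) : R H b l e < Fintype.card E := by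
  have := rk_lt_card (H := H l) e
  unfold R
  split_ifs <;> omega

theorem R_inj (hH : ∀ l, Function.Injective (H l)) {b : Bool} {l : ℕ} {e e' : E}
    (h : R H b l e = R H b l e') : e = e' := by
  have h1 := rk_lt_card (H := H l) e
  have h2 := rk_lt_card (H := H l) e'
  apply rk_inj (hH l)
  unfold R at h
  split_ifs at h <;> omega

theorem R_surj (hH : ∀ l, Function.Injective (H l)) (b : Bool) (l : ℕ) {r : ℕ}
    (hr : r < Fintype.card E) : ∃ e : E, R H b l e = r := by
  cases b
  · obtain ⟨e, he⟩ := rk_surj (hH l) (r := Fintype.card E - 1 - r) (by omega)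
    refine ⟨e, ?_⟩
    simp only [R, Bool.false_eq_true, if_false]
    omega
  · obtain ⟨e, he⟩ := rk_surj (hH l) (r := r) (by omega)
    exact ⟨e, by simpa [R] using he⟩

theorem pos_R (b : Bool) (l : ℕ) (e e' : E) :
    pos (b, R H b l e) < pos (b, R H b l e') ↔ H l e < H l e' := by
  have h1 := rk_lt_card (H := H l) e
  have h2 := rk_lt_card (H := H l) e'
  rw [← rk_lt_iff (H := H l),
    pos_lt_iff (u := (b, R H b l e)) (v := (b, R H b l e')) rfl]
  cases b
  · simp [R]
    omega
  · simp [R]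

theorem R_lt2 (b b' : Bool) (l : ℕ) (e : E) :
    ((b', R H b l e) : V).2 < Fintype.card E := R_lt b l e

end role

section comp

variable {E : Type} [Fintype E] (H : ℕ → E → ℤ) (z : ℕ → V → ℤ) (xP : ℕ → V → ℤ) (kP : ℕ → ℕ)
  (up dn : ℕ → V)

/-- statuses inside the window of the exchange `t` -/
noncomputable def Y (t p : ℕ) (w : V × E) : ℤ :=
  if w.1 = up t then z p (false, R H false (kP t) w.2)
  else if w.1 = dn t then z p (true, R H true (kP t) w.2)
  else xP t w.1

/-- the specification of the exchanges of the outer system -/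
structure Ex (gP TP : ℕ) : Prop where
  ug : ∀ t < TP, (up t).2 < gP
  dg : ∀ t < TP, (dn t).2 < gP
  u0 : ∀ t < TP, xP t (up t) = 0
  u1 : ∀ t < TP, xP (t + 1) (up t) = 1
  d1 : ∀ t < TP, xP t (dn t) = 1
  d0 : ∀ t < TP, xP (t + 1) (dn t) = 0
  ot : ∀ t < TP, ∀ v : V, v.2 < gP → v ≠ up t → v ≠ dn t → xP (t + 1) v = xP t v

variable {H z xP kP up dn} {gP TP DP DB N : ℕ} {JP JZ : ℕ → ℕ → Prop} {kz : ℕ → ℕ}

theorem Ex.ne (hE : Ex xP up dn gP TP) {t : ℕ} (ht : t < TP) : up t ≠ dn t := by
  intro h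
  have h1 := hE.u0 t ht
  have h2 := hE.d1 t ht
  rw [h, h2] at h1
  norm_num at h1

theorem Y_zero (hE : Ex xP up dn gP TP) (hZ : Zig (Fintype.card E) N DB JZ z kz) {t : ℕ}
    (ht : t < TP) (w : V × E) : Y H z xP kP up dn t 0 w = xP t w.1 := by
  unfold Y
  split_ifs with h1 h2
  · rw [hZ.ini (false, R H false (kP t) w.2) (R_lt2 _ _ _ _), h1, hE.u0 t ht]
    simp
  · rw [hZ.ini (true, R H true (kP t) w.2) (R_lt2 _ _ _ _), h2, hE.d1 t ht]
    simp
  · rfl

theorem Y_last (hE : Ex xP up dn gP TP) (hZ : Zig (Fintype.card E) N DB JZ z kz) {t : ℕ}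
    (ht : t < TP) (w : V × E) (hw : w.1.2 < gP) :
    Y H z xP kP up dn t N w = xP (t + 1) w.1 := by
  unfold Y
  split_ifs with h1 h2
  · rw [hZ.fin (false, R H false (kP t) w.2) (R_lt2 _ _ _ _), h1, hE.u1 t ht]
    simp
  · rw [hZ.fin (true, R H true (kP t) w.2) (R_lt2 _ _ _ _), h2, hE.d0 t ht]
    simp
  · exact (hE.ot t ht w.1 hw h1 h2).symm

theorem Y_01 (hP : ∀ t v, xP t v = 0 ∨ xP t v = 1) (hZ : Zig (Fintype.card E) N DB JZ z kz)
    (t p : ℕ) (w : V × E) : Y H z xP kP up dn t p w = 0 ∨ Y H z xP kP up dn t p w = 1 := by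
  unfold Y
  split_ifs
  · exact hZ.h01 _ _
  · exact hZ.h01 _ _
  · exact hP _ _

/-- different statuses of curves in different bundles come from the outer system -/
theorem Y_base (hE : Ex xP up dn gP TP) {t p : ℕ}
    (ht : t < TP) {w w' : V × E} (hw : w.1.2 < gP) (hw' : w'.1.2 < gP)
    (hne : w.1 ≠ w'.1) {a b : ℤ} (hab : a ≠ b) (ha : a = 0 ∨ a = 1) (hb : b = 0 ∨ b = 1)
    (h1 : Y H z xP kP up dn t p w = a) (h2 : Y H z xP kP up dn t p w' = b) :
    ∃ s, t ≤ s ∧ s ≤ t + 1 ∧ xP s w.1 = a ∧ xP s w'.1 = b := by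
  have hud := hE.ne ht
  have key : ∀ v : V, (v = up t ∨ v = dn t) → ∀ c : ℤ, (c = 0 ∨ c = 1) →
      ∃ s, t ≤ s ∧ s ≤ t + 1 ∧ xP s v = c := by
    rintro v (rfl | rfl) c (rfl | rfl)
    · exact ⟨t, le_rfl, by omega, hE.u0 t ht⟩
    · exact ⟨t + 1, by omega, le_rfl, hE.u1 t ht⟩
    · exact ⟨t + 1, by omega, le_rfl, hE.d0 t ht⟩
    · exact ⟨t, le_rfl, by omega, hE.d1 t ht⟩
  have const : ∀ w : V × E, w.1.2 < gP → ¬ (w.1 = up t ∨ w.1 = dn t) → ∀ c,
      Y H z xP kP up dn t p w = c → ∀ s, t ≤ s → s ≤ t + 1 → xP s w.1 = c := by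
    intro w hw hn c hc s hs1 hs2
    rw [not_or] at hn
    unfold Y at hc
    rw [if_neg hn.1, if_neg hn.2] at hc
    rcases Nat.lt_or_ge t s with h | h
    · obtain rfl : s = t + 1 := by omega
      rw [hE.ot t ht w.1 hw hn.1 hn.2, hc]
    · obtain rfl : s = t := by omega
      exact hc
  by_cases c1 : w.1 = up t ∨ w.1 = dn t
  · by_cases c2 : w'.1 = up t ∨ w'.1 = dn t
    · rcases c1 with c1 | c1 <;> rcases c2 with c2 | c2
      · exact absurd (c1.trans c2.symm) hne
      · rcases ha with rfl | rfl <;> rcases hb with rfl | rfl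
        · exact absurd rfl hab
        · exact ⟨t, le_rfl, by omega, by rw [c1]; exact hE.u0 t ht, by rw [c2]; exact hE.d1 t ht⟩
        · exact ⟨t + 1, by omega, le_rfl, by rw [c1]; exact hE.u1 t ht,
            by rw [c2]; exact hE.d0 t ht⟩
        · exact absurd rfl hab
      · rcases ha with rfl | rfl <;> rcases hb with rfl | rfl
        · exact absurd rfl hab
        · exact ⟨t + 1, by omega, le_rfl, by rw [c1]; exact hE.d0 t ht,
            by rw [c2]; exact hE.u1 t ht⟩
        · exact ⟨t, le_rfl, by omega, by rw [c1]; exact hE.d1 t ht, by rw [c2]; exact hE.u0 t ht⟩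
        · exact absurd rfl hab
      · exact absurd (c1.trans c2.symm) hne
    · obtain ⟨s, hs1, hs2, hs3⟩ := key w.1 c1 a ha
      exact ⟨s, hs1, hs2, hs3, const w' hw' c2 b h2 s hs1 hs2⟩
  · by_cases c2 : w'.1 = up t ∨ w'.1 = dn t
    · obtain ⟨s, hs1, hs2, hs3⟩ := key w'.1 c2 b hb
      exact ⟨s, hs1, hs2, const w hw c1 a h1 s hs1 hs2, hs3⟩
    · exact ⟨t, le_rfl, by omega, const w hw c1 a h1 t le_rfl (by omega),
        const w' hw' c2 b h2 t le_rfl (by omega)⟩

/-- a curve whose status is not the one of its bundle-mate belongs to a moving bundle -/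
theorem Y_role {t p : ℕ} {w w' : V × E} (hb : w.1 = w'.1)
    (h : Y H z xP kP up dn t p w ≠ Y H z xP kP up dn t p w') :
    (w.1 = up t ∧ Y H z xP kP up dn t p w = z p (false, R H false (kP t) w.2) ∧
      Y H z xP kP up dn t p w' = z p (false, R H false (kP t) w'.2)) ∨
    (w.1 ≠ up t ∧ w.1 = dn t ∧ Y H z xP kP up dn t p w = z p (true, R H true (kP t) w.2) ∧
      Y H z xP kP up dn t p w' = z p (true, R H true (kP t) w'.2)) := by
  unfold Y at h ⊢
  rw [← hb] at h ⊢
  by_cases c1 : w.1 = up t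
  · rw [if_pos c1, if_pos c1]
    exact Or.inl ⟨c1, rfl, rfl⟩
  · by_cases c2 : w.1 = dn t
    · rw [if_neg c1, if_pos c2, if_neg c1, if_pos c2]
      exact Or.inr ⟨c1, c2, rfl, rfl⟩
    · rw [if_neg c1, if_neg c2, if_neg c1, if_neg c2] at h
      exact absurd rfl h

theorem Y_role2 (hE : Ex xP up dn gP TP) {w w' : V × E} (heq : w.1 = w'.1) {t p : ℕ}
    (ht : t < TP) {c d : ℤ} (hcd : c ≠ d) (hc : Y H z xP kP up dn t p w = c)
    (hd : Y H z xP kP up dn t p w' = d) :
    ∃ b : Bool, xP t w.1 ≠ xP (t + 1) w.1 ∧ (w.1 = if b then dn t else up t) ∧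
      z p (b, R H b (kP t) w.2) = c ∧ z p (b, R H b (kP t) w'.2) = d := by
  rcases Y_role (H := H) (z := z) (xP := xP) (kP := kP) (up := up) (dn := dn) (t := t) (p := p)
    heq (by rw [hc, hd]; exact hcd) with ⟨a1, a2, a3⟩ | ⟨_, a1, a2, a3⟩
  · exact ⟨false, by rw [a1, hE.u0 t ht, hE.u1 t ht]; norm_num, by simpa using a1,
      a2.symm.trans hc, a3.symm.trans hd⟩
  · exact ⟨true, by rw [a1, hE.d0 t ht, hE.d1 t ht]; norm_num, by simpa using a1,
      a2.symm.trans hc, a3.symm.trans hd⟩

/-- The conditions on the bundle: `Jr l e e'` says that `e`, lying below `e'` at the clock value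
`l`, may change its order with `e'` during an exchange with this clock value. -/
structure Bun (H : ℕ → E → ℤ) (DP : ℕ) (JZ : ℕ → ℕ → Prop) (Jr : ℕ → E → E → Prop) : Prop where
  inj : ∀ l, Function.Injective (H l)
  hJ : ∀ l < DP, ∀ b e e', H l e < H l e' → JZ (R H b l e) (R H b l e') → Jr l e e'
  c1 : ∀ l l' e e', l < l' → l' < DP → H 0 e < H 0 e' → (H l e' < H l e ∨ Jr l e e') →
    H l' e' < H l' e ∧ ¬ Jr l' e' e
  c2 : ∀ l e e', l < DP → H 0 e < H 0 e' → H l e' < H l e → ¬ Jr l e' e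

variable {Jr : ℕ → E → E → Prop}

theorem Bun.cases (hB : Bun H DP JZ Jr) {l : ℕ} {e e' : E} (h : e ≠ e') :
    H l e < H l e' ∨ H l e' < H l e := by
  rcases lt_trichotomy (H l e) (H l e') with h1 | h1 | h1
  · exact Or.inl h1
  · exact absurd (hB.inj l h1) h
  · exact Or.inr h1

/-- a display of the order not the initial one -/
theorem Bun.disp (hB : Bun H DP JZ Jr) (hZ : Zig (Fintype.card E) N DB JZ z kz) {b : Bool} {l p : ℕ}
    (hl : l < DP) (hp : p ≤ N) {e e' : E} (h1 : z p (b, R H b l e) = 1)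
    (h0 : z p (b, R H b l e') = 0) : H l e' < H l e ∨ Jr l e e' := by
  have hne : e ≠ e' := by
    rintro rfl
    rw [h0] at h1
    norm_num at h1
  rcases hB.cases (l := l) hne with h | h
  · right
    have hpos := (pos_R b l e e').2 h
    refine hB.hJ l hl b e e' h ?_
    by_contra hJ
    have := hZ.nj (b, R H b l e) (b, R H b l e') (R_lt2 _ _ _ _) (R_lt2 _ _ _ _) rfl hpos hJ p hp
    rw [h1, h0] at this
    norm_num at this
  · exact Or.inl h

/-- the order of a pair of curves of the composite changes at most once -/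
theorem Y_pair (hP : Zig gP TP DP JP xP kP) (hE : Ex xP up dn gP TP)
    (hZ : Zig (Fintype.card E) N DB JZ z kz) (hB : Bun H DP JZ Jr) {w w' : V × E}
    (hw : w.1.2 < gP) (hw' : w'.1.2 < gP)
    (hord : (w.1 ≠ w'.1 ∧ pos w.1 < pos w'.1) ∨ (w.1 = w'.1 ∧ H 0 w.2 < H 0 w'.2))
    {t t' p p' : ℕ} (ht : t < TP) (ht' : t' < TP) (hp : p ≤ N) (hp' : p' ≤ N)
    (hle : t < t' ∨ (t = t' ∧ p ≤ p'))
    (h1 : Y H z xP kP up dn t p w' = 0) (h2 : Y H z xP kP up dn t p w = 1)
    (h3 : Y H z xP kP up dn t' p' w' = 1) (h4 : Y H z xP kP up dn t' p' w = 0) : False := by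
  rcases hord with ⟨hne, hpos⟩ | ⟨heq, hH⟩
  · obtain ⟨s, s1, s2, s3, s4⟩ := Y_base hE ht hw hw' hne (a := 1) (b := 0) (by norm_num)
      (Or.inr rfl) (Or.inl rfl) h2 h1
    obtain ⟨s', s1', s2', s3', s4'⟩ := Y_base hE ht' hw hw' hne (a := 0) (b := 1) (by norm_num)
      (Or.inl rfl) (Or.inr rfl) h4 h3
    rcases Nat.lt_or_ge s' s with hs | hs
    · rcases hle with hle | ⟨rfl, hpp⟩
      · omega
      · obtain rfl : s = t + 1 := by omega
        obtain rfl : s' = t := by omega
        have hud := hE.ne ht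
        -- `w` goes up and `w'` goes down
        have hwu : w.1 = up s' := by
          by_contra c1
          by_cases c2 : w.1 = dn s'
          · have := hE.d1 s' ht
            rw [← c2, s3'] at this
            norm_num at this
          · have := hE.ot s' ht w.1 hw c1 c2
            rw [s3, s3'] at this
            norm_num at this
        have hwd : w'.1 = dn s' := by
          by_contra c1
          by_cases c2 : w'.1 = up s'
          · exact hne (hwu.trans c2.symm)
          · have := hE.ot s' ht w'.1 hw' c2 c1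
            rw [s4, s4'] at this
            norm_num at this
        have hnu : w'.1 ≠ up s' := fun h => hud (h.symm.trans hwd)
        unfold Y at h1 h2 h3 h4
        rw [if_neg hnu, if_pos hwd] at h1 h3
        rw [if_pos hwu] at h2 h4
        have := hZ.pr (false, R H false (kP s') w.2) (true, R H true (kP s') w'.2)
          (R_lt2 _ _ _ _) (R_lt2 _ _ _ _) ((pos_cross (by simp)).2 rfl) p p' hpp hp'
        dsimp only at this
        rw [h1, h2, h3, h4] at this
        have := this (by norm_num)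
        norm_num at this
    · have := hP.pr w.1 w'.1 hw hw' hpos s s' hs (by omega)
      dsimp only at this
      rw [s3, s4, s3', s4'] at this
      have := this (by norm_num)
      norm_num at this
  · -- same bundle
    obtain ⟨b, c1, c2, c3, c4⟩ := Y_role2 hE heq ht (c := 1) (d := 0) (by norm_num) h2 h1
    obtain ⟨b', c1', c2', c3', c4'⟩ := Y_role2 hE heq ht' (c := 0) (d := 1) (by norm_num) h4 h3
    have hl := hP.clk t ht
    have hl' := hP.clk t' ht'
    have hUp := hB.disp hZ hl hp c3 c4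
    have hDn := hB.disp hZ hl' hp' c4' c3'
    rcases hle with hle | ⟨rfl, hpp⟩
    · have hll : kP t < kP t' := hP.inc t t' hle ht' w.1 hw c1 c1'
      obtain ⟨a1, a2⟩ := hB.c1 (kP t) (kP t') w.2 w'.2 hll hl' hH hUp
      rcases hDn with h | h
      · omega
      · exact a2 h
    · have hbb : b = b' := by
        have hud := hE.ne ht
        cases b <;> cases b' <;> simp at c2 c2' ⊢
        · exact hud (c2.symm.trans c2')
        · exact hud (c2'.symm.trans c2)
      subst hbb
      rcases hB.cases (l := kP t) (e := w.2) (e' := w'.2) (by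
        intro h
        rw [h] at hH
        exact lt_irrefl _ hH) with h | h
      · have hpos := (pos_R b (kP t) w.2 w'.2).2 h
        have := hZ.pr (b, R H b (kP t) w.2) (b, R H b (kP t) w'.2)
          (R_lt2 _ _ _ _) (R_lt2 _ _ _ _) hpos p p' hpp hp'
        dsimp only at this
        rw [c3, c4, c3', c4'] at this
        have := this (by norm_num)
        norm_num at this
      · rcases hDn with h' | h'
        · omega
        · exact hB.c2 (kP t) w.2 w'.2 hl hH h h'

/-- statuses of the composite at the time `τ` -/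
noncomputable def X (H : ℕ → E → ℤ) (z : ℕ → V → ℤ) (xP : ℕ → V → ℤ) (kP : ℕ → ℕ)
    (up dn : ℕ → V) (N TP : ℕ) (τ : ℕ) (w : V × E) : ℤ :=
  if τ / N < TP then Y H z xP kP up dn (τ / N) (τ % N) w else xP TP w.1

theorem X_at (hE : Ex xP up dn gP TP) (hZ : Zig (Fintype.card E) N DB JZ z kz) (hN : 0 < N)
    {t p : ℕ} (ht : t < TP) (hp : p ≤ N) {w : V × E} (hw : w.1.2 < gP) :
    X H z xP kP up dn N TP (t * N + p) w = Y H z xP kP up dn t p w := by
  rcases Nat.lt_or_ge p N with h | h
  · have h1 : (t * N + p) / N = t := by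
      rw [mul_comm, Nat.mul_add_div hN, Nat.div_eq_of_lt h, add_zero]
    have h2 : (t * N + p) % N = p := by
      rw [mul_comm, Nat.mul_add_mod, Nat.mod_eq_of_lt h]
    unfold X
    rw [h1, h2, if_pos ht]
  · obtain rfl : p = N := by omega
    have h1 : (t * p + p) / p = t + 1 := by
      rw [mul_comm, Nat.mul_add_div hN, Nat.div_self hN]
    have h2 : (t * p + p) % p = 0 := by
      rw [mul_comm, Nat.mul_add_mod, Nat.mod_self]
    rw [Y_last hE hZ ht w hw]
    unfold X
    rw [h1, h2]
    split_ifs with h3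
    · exact Y_zero hE hZ h3 w
    · rw [show TP = t + 1 by omega]

/-- the element of the bundle with given initial distance from the gap -/
noncomputable def dec (H : ℕ → E → ℤ) (hH : ∀ l, Function.Injective (H l)) (b : Bool) (r : ℕ)
    (hr : r < Fintype.card E) : E := (R_surj hH b 0 hr).choose

theorem dec_spec (hH : ∀ l, Function.Injective (H l)) (b : Bool) (r : ℕ)
    (hr : r < Fintype.card E) : R H b 0 (dec H hH b r hr) = r := (R_surj hH b 0 hr).choose_spec

/-- the curve of the composite with given side and index -/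
noncomputable def cw (hH : ∀ l, Function.Injective (H l)) (hm0 : 0 < Fintype.card E) (v : V) :
    V × E :=
  ((v.1, v.2 / Fintype.card E), dec H hH v.1 (v.2 % Fintype.card E) (Nat.mod_lt _ hm0))

theorem cw_order {hH : ∀ l, Function.Injective (H l)} {hm0 : 0 < Fintype.card E} {u v : V}
    (h : pos u < pos v) :
    ((cw hH hm0 u).1 ≠ (cw hH hm0 v).1 ∧ pos (cw hH hm0 u).1 < pos (cw hH hm0 v).1) ∨
    ((cw hH hm0 u).1 = (cw hH hm0 v).1 ∧ H 0 (cw hH hm0 u).2 < H 0 (cw hH hm0 v).2) := by
  obtain ⟨b, I⟩ := u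
  obtain ⟨b', I'⟩ := v
  by_cases hb : b = b'
  · subst hb
    by_cases hq : I / Fintype.card E = I' / Fintype.card E
    · right
      refine ⟨by simp [cw, hq], ?_⟩
      have e1 := dec_spec hH b (I % Fintype.card E) (Nat.mod_lt _ hm0)
      have e2 := dec_spec hH b (I' % Fintype.card E) (Nat.mod_lt _ hm0)
      have h1 := Nat.div_add_mod I (Fintype.card E)
      have h2 := Nat.div_add_mod I' (Fintype.card E)
      rw [← hq] at h2
      rw [← pos_R b 0]
      unfold cw
      dsimp only
      rw [e1, e2]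
      rw [pos_mk_lt] at h ⊢
      rcases h with ⟨h3, h4⟩ | ⟨h3, h4⟩
      · exact Or.inl ⟨h3, by omega⟩
      · exact Or.inr ⟨h3, by omega⟩
    · left
      refine ⟨by simpa [cw] using hq, ?_⟩
      unfold cw
      dsimp only
      rw [pos_mk_lt] at h ⊢
      rcases h with ⟨h3, h4⟩ | ⟨h3, h4⟩
      · have := Nat.div_le_div_right (c := Fintype.card E) h4.le
        exact Or.inl ⟨h3, by omega⟩
      · have := Nat.div_le_div_right (c := Fintype.card E) h4.le
        exact Or.inr ⟨h3, by omega⟩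
  · left
    refine ⟨by simp [cw, hb], ?_⟩
    rw [pos_cross (by simpa using hb)] at h
    exact (pos_cross (by simpa [cw] using hb)).2 h

theorem cw_inj {hH : ∀ l, Function.Injective (H l)} {hm0 : 0 < Fintype.card E} {u v : V}
    (h : cw hH hm0 u = cw hH hm0 v) : u = v := by
  by_contra hne
  have hp : pos u ≠ pos v := by
    intro hp
    apply hne
    obtain ⟨b, i⟩ := u
    obtain ⟨b', j⟩ := v
    cases b <;> cases b' <;> simp [pos] at hp ⊢ <;> omega
  rcases lt_or_gt_of_ne hp with h1 | h1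
  · rcases cw_order (hH := hH) (hm0 := hm0) h1 with ⟨h2, _⟩ | ⟨_, h2⟩
    · exact h2 (by rw [h])
    · rw [h] at h2
      omega
  · rcases cw_order (hH := hH) (hm0 := hm0) h1 with ⟨h2, _⟩ | ⟨_, h2⟩
    · exact h2 (by rw [h])
    · rw [h] at h2
      omega

theorem cw_surj (hH : ∀ l, Function.Injective (H l)) (hm0 : 0 < Fintype.card E) {w : V × E}
    (hw : w.1.2 < gP) : ∃ v : V, v.2 < gP * Fintype.card E ∧ cw hH hm0 v = w := by
  obtain ⟨⟨b, i⟩, e⟩ := w
  dsimp only at hw
  have hr := R_lt (H := H) b 0 e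
  refine ⟨(b, i * Fintype.card E + R H b 0 e), ?_, ?_⟩
  · dsimp only
    calc i * Fintype.card E + R H b 0 e < i * Fintype.card E + Fintype.card E := by omega
      _ = (i + 1) * Fintype.card E := by ring
      _ ≤ gP * Fintype.card E := Nat.mul_le_mul_right _ hw
  · have h1 : (i * Fintype.card E + R H b 0 e) / Fintype.card E = i := by
      rw [mul_comm, Nat.mul_add_div hm0, Nat.div_eq_of_lt hr, add_zero]
    have h2 : (i * Fintype.card E + R H b 0 e) % Fintype.card E = R H b 0 e := by
      rw [mul_comm, Nat.mul_add_mod, Nat.mod_eq_of_lt hr]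
    unfold cw
    dsimp only
    ext1
    · dsimp only
      rw [h1]
    · dsimp only
      apply R_inj hH (b := b) (l := 0)
      rw [dec_spec, h2]

/-- **Composition**: every curve of the outer system is replaced by a bundle, every exchange by a
copy of the inner system, in which the curves have the roles given by their ranks at the clock
value of the exchange. -/
theorem comp (hP : HasZig gP TP DP (fun _ _ => True)) (hZ : HasZig (Fintype.card E) N DB JZ)
    (hB : Bun H DP JZ Jr) (hm0 : 0 < Fintype.card E) (hN0 : 0 < N) {J' : ℕ → ℕ → Prop}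
    (hJ1 : ∀ b I I', I < gP * Fintype.card E → I' < gP * Fintype.card E →
      I / Fintype.card E ≠ I' / Fintype.card E → pos (b, I) < pos (b, I') → J' I I')
    (hJ2 : ∀ b c e e', c < gP → H 0 e < H 0 e' → (∃ l < DP, H l e' < H l e ∨ Jr l e e') →
      J' (c * Fintype.card E + R H b 0 e) (c * Fintype.card E + R H b 0 e')) :
    HasZig (gP * Fintype.card E) (TP * N) (TP * N) J' := by
  obtain ⟨z, kz, hZ⟩ := hZ
  obtain ⟨xP, kP, hP⟩ := hP
  set m := Fintype.card E with hm
  have hH := hB.inj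
  -- the exchanges of the outer system
  have hex : ∀ t, ∃ ud : V × V, t < TP → ud.1.2 < gP ∧ ud.2.2 < gP ∧ xP t ud.1 = 0 ∧
      xP (t + 1) ud.1 = 1 ∧ xP t ud.2 = 1 ∧ xP (t + 1) ud.2 = 0 ∧
      ∀ v : V, v.2 < gP → v ≠ ud.1 → v ≠ ud.2 → xP (t + 1) v = xP t v := by
    intro t
    by_cases ht : t < TP
    · obtain ⟨u, d, h⟩ := hP.exch t ht
      exact ⟨(u, d), fun _ => h⟩
    · exact ⟨((false, 0), (false, 0)), fun h => absurd h ht⟩
  choose ud hud using hex
  let up : ℕ → V := fun t => (ud t).1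
  let dn : ℕ → V := fun t => (ud t).2
  have hE : Ex xP up dn gP TP :=
    ⟨fun t ht => (hud t ht).1, fun t ht => (hud t ht).2.1, fun t ht => (hud t ht).2.2.1,
      fun t ht => (hud t ht).2.2.2.1, fun t ht => (hud t ht).2.2.2.2.1,
      fun t ht => (hud t ht).2.2.2.2.2.1, fun t ht => (hud t ht).2.2.2.2.2.2⟩
  let c : V → V × E := cw hH hm0
  have hc2 : ∀ v : V, v.2 < gP * m → (c v).1.2 < gP := by
    intro v hv
    exact Nat.div_lt_of_lt_mul (by rwa [mul_comm] at hv)
  have hX : ∀ {t p : ℕ}, t < TP → p ≤ N → ∀ v : V, v.2 < gP * m →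
      X H z xP kP up dn N TP (t * N + p) (c v) = Y H z xP kP up dn t p (c v) :=
    fun ht hp v hv => X_at hE hZ hN0 ht hp (hc2 v hv)
  have hdm : ∀ τ, τ / N * N + τ % N = τ := fun τ => Nat.div_add_mod' τ N
  -- times before the end
  have hsplit : ∀ τ, τ < TP * N → τ / N < TP ∧ τ % N < N := fun τ hτ =>
    ⟨Nat.div_lt_of_lt_mul (by rwa [mul_comm] at hτ), Nat.mod_lt _ hN0⟩
  -- every time up to the end lies in a closed window
  have hwin : 0 < TP → ∀ τ, τ ≤ TP * N → ∃ t p, t < TP ∧ p ≤ N ∧ τ = t * N + p := by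
    intro hTP τ hτ
    rcases Nat.lt_or_ge τ (TP * N) with h | h
    · exact ⟨τ / N, τ % N, (hsplit τ h).1, (hsplit τ h).2.le, (hdm τ).symm⟩
    · refine ⟨TP - 1, N, by omega, le_rfl, ?_⟩
      obtain rfl : τ = TP * N := by omega
      rw [← Nat.succ_mul, Nat.succ_eq_add_one, Nat.sub_add_cancel hTP]
  have h01 : ∀ τ v, X H z xP kP up dn N TP τ (c v) = 0 ∨ X H z xP kP up dn N TP τ (c v) = 1 := by
    intro τ v
    unfold X
    split_ifs
    · exact Y_01 hP.h01 hZ _ _ _
    · exact hP.h01 _ _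
  have hfst : ∀ v : V, (c v).1 = (v.1, v.2 / m) := fun v => rfl
  have hsnd : ∀ v : V, R H v.1 0 (c v).2 = v.2 % m := fun v =>
    dec_spec hH _ _ (Nat.mod_lt _ hm0)
  have hXstep : ∀ τ, τ < TP * N → ∀ v : V, v.2 < gP * m →
      X H z xP kP up dn N TP τ (c v) = Y H z xP kP up dn (τ / N) (τ % N) (c v) ∧
      X H z xP kP up dn N TP (τ + 1) (c v) = Y H z xP kP up dn (τ / N) (τ % N + 1) (c v) := by
    intro τ hτ v hv
    obtain ⟨h1, h2⟩ := hsplit τ hτ
    constructor
    · have := hX h1 h2.le v hv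
      rwa [hdm] at this
    · have := hX h1 (p := τ % N + 1) h2 v hv
      rwa [← add_assoc, hdm] at this
  refine ⟨fun τ v => X H z xP kP up dn N TP τ (c v), fun τ => τ, h01, ?_, ?_, ?_, ?_, ?_, ?_, ?_⟩
  · intro v hv
    rcases Nat.eq_zero_or_pos TP with hTP | hTP
    · unfold X
      rw [if_neg (by rw [hTP]; exact Nat.not_lt_zero _), hTP, hP.ini _ (hc2 v hv), hfst]
    · have := hX hTP (Nat.zero_le N) v hv
      rw [zero_mul, zero_add] at this
      rw [this, Y_zero hE hZ hTP, hP.ini _ (hc2 v hv), hfst]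
  · intro v hv
    unfold X
    rw [Nat.mul_div_cancel _ hN0, if_neg (by omega), hP.fin _ (hc2 v hv), hfst]
  · intro τ hτ
    obtain ⟨ht, hp⟩ := hsplit τ hτ
    obtain ⟨u, d, hu, hd, a1, a2, a3, a4, a5⟩ := hZ.exch (τ % N) hp
    set t := τ / N with ht'
    set p := τ % N with hp'
    let role : Bool → V := fun b => if b then dn t else up t
    have hud' := hE.ne ht
    obtain ⟨eu, heu⟩ := R_surj hH u.1 (kP t) hu
    obtain ⟨ed, hed⟩ := R_surj hH d.1 (kP t) hd
    have hYrole : ∀ (b : Bool) (e : E) (p : ℕ),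
        Y H z xP kP up dn t p (role b, e) = z p (b, R H b (kP t) e) := by
      intro b e p
      cases b
      · exact if_pos rfl
      · exact (if_neg hud'.symm).trans (if_pos rfl)
    have hrg : ∀ b, (role b).2 < gP := by
      intro b
      cases b
      · exact hE.ug t ht
      · exact hE.dg t ht
    obtain ⟨vu, hvu, hvu'⟩ := cw_surj hH hm0 (w := (role u.1, eu)) (hrg u.1)
    obtain ⟨vd, hvd, hvd'⟩ := cw_surj hH hm0 (w := (role d.1, ed)) (hrg d.1)
    have hcu : c vu = (role u.1, eu) := hvu'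
    have hcd : c vd = (role d.1, ed) := hvd'
    have hu' : ((u.1, R H u.1 (kP t) eu) : V) = u := by rw [heu]
    have hd' : ((d.1, R H d.1 (kP t) ed) : V) = d := by rw [hed]
    refine ⟨vu, vd, hvu, hvd, ?_, ?_, ?_, ?_, ?_⟩
    · rw [(hXstep τ hτ vu hvu).1, hcu, ← ht', ← hp', hYrole, hu', a1]
    · rw [(hXstep τ hτ vu hvu).2, hcu, ← ht', ← hp', hYrole, hu', a2]
    · rw [(hXstep τ hτ vd hvd).1, hcd, ← ht', ← hp', hYrole, hd', a3]
    · rw [(hXstep τ hτ vd hvd).2, hcd, ← ht', ← hp', hYrole, hd', a4]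
    · intro v hv n1 n2
      rw [(hXstep τ hτ v hv).1, (hXstep τ hτ v hv).2, ← ht', ← hp']
      by_cases hr : ∃ b, (c v).1 = role b
      · obtain ⟨b, hb⟩ := hr
        have hcv : c v = (role b, (c v).2) := by rw [← hb]
        rw [hcv, hYrole, hYrole]
        refine a5 _ (R_lt2 _ _ _ _) ?_ ?_
        · intro h
          apply n1
          apply cw_inj (hH := hH) (hm0 := hm0)
          show c v = c vu
          have hb1 : b = u.1 := congrArg Prod.fst h
          subst hb1
          have h2 : R H u.1 (kP t) (c v).2 = u.2 := congrArg Prod.snd h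
          rw [hcv, hcu, R_inj hH (h2.trans heu.symm)]
        · intro h
          apply n2
          apply cw_inj (hH := hH) (hm0 := hm0)
          show c v = c vd
          have hb1 : b = d.1 := congrArg Prod.fst h
          subst hb1
          have h2 : R H d.1 (kP t) (c v).2 = d.2 := congrArg Prod.snd h
          rw [hcv, hcd, R_inj hH (h2.trans hed.symm)]
      · have r1 : (c v).1 ≠ up t := fun h => hr ⟨false, h⟩
        have r2 : (c v).1 ≠ dn t := fun h => hr ⟨true, h⟩
        unfold Y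
        rw [if_neg r1, if_neg r2, if_neg r1, if_neg r2]
  · intro u v hu hv hpos τ τ' hττ hτ' hneg
    dsimp only at hneg ⊢
    rcases Nat.eq_zero_or_pos TP with hTP | hTP
    · subst hTP
      have : τ = 0 := by omega
      have : τ' = 0 := by omega
      subst_vars
      omega
    obtain ⟨t, p, ht, hp, rfl⟩ := hwin hTP τ (by omega)
    obtain ⟨t', p', ht', hp', rfl⟩ := hwin hTP τ' hτ'
    have hle : t < t' ∨ (t = t' ∧ p ≤ p') ∨ (t = t' + 1 ∧ p = 0 ∧ p' = N) := by
      rcases Nat.lt_trichotomy t t' with h | h | h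
      · exact Or.inl h
      · subst h
        exact Or.inr (Or.inl ⟨rfl, by omega⟩)
      · right; right
        have h3 : (t' + 1) * N ≤ t * N := Nat.mul_le_mul_right _ h
        rw [add_mul, one_mul] at h3
        have h4 : t * N = t' * N + N := by omega
        have h5 : t = t' + 1 := by
          have : t * N = (t' + 1) * N := by rw [add_mul, one_mul]; exact h4
          exact Nat.eq_of_mul_eq_mul_right hN0 this
        exact ⟨h5, by omega, by omega⟩
    rw [hX ht hp v hv, hX ht hp u hu] at hneg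
    rw [hX ht' hp' v hv, hX ht' hp' u hu]
    have b1 := Y_01 (H := H) (up := up) (dn := dn) (kP := kP) hP.h01 hZ t p (c v)
    have b2 := Y_01 (H := H) (up := up) (dn := dn) (kP := kP) hP.h01 hZ t p (c u)
    have b3 := Y_01 (H := H) (up := up) (dn := dn) (kP := kP) hP.h01 hZ t' p' (c v)
    have b4 := Y_01 (H := H) (up := up) (dn := dn) (kP := kP) hP.h01 hZ t' p' (c u)
    by_contra hcon
    rcases hle with hle | hle | ⟨rfl, rfl, rfl⟩
    · exact Y_pair hP hE hZ hB (hc2 u hu) (hc2 v hv) (cw_order hpos) ht ht' hp hp'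
        (Or.inl hle) (by omega) (by omega) (by omega) (by omega)
    · exact Y_pair hP hE hZ hB (hc2 u hu) (hc2 v hv) (cw_order hpos) ht ht' hp hp'
        (Or.inr hle) (by omega) (by omega) (by omega) (by omega)
    · rw [Y_zero hE hZ ht, Y_zero hE hZ ht] at hneg
      rw [Y_last hE hZ ht' _ (hc2 v hv), Y_last hE hZ ht' _ (hc2 u hu)] at hcon
      omega
  · intro u v hu hv hs hpos hJ τ hτ
    by_contra hcon
    obtain ⟨b, I⟩ := u
    obtain ⟨b', I'⟩ := v
    dsimp only at hs hu hv hJ
    subst hs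
    have hq : I / m = I' / m := by
      by_contra hq
      exact hJ (hJ1 b I I' hu hv hq hpos)
    have hbun : (c (b, I)).1 = (c (b, I')).1 := by
      rw [hfst, hfst, hq]
    rcases Nat.eq_zero_or_pos TP with hTP | hTP
    · apply hcon
      unfold X
      rw [if_neg (by rw [hTP]; exact Nat.not_lt_zero _),
        if_neg (by rw [hTP]; exact Nat.not_lt_zero _), hbun]
    obtain ⟨t, p, ht, hp, rfl⟩ := hwin hTP τ hτ
    rw [hX ht hp _ hu, hX ht hp _ hv] at hcon
    have b1 := Y_01 (H := H) (up := up) (dn := dn) (kP := kP) hP.h01 hZ t p (c (b, I))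
    have b2 := Y_01 (H := H) (up := up) (dn := dn) (kP := kP) hP.h01 hZ t p (c (b, I'))
    have h0 : H 0 (c (b, I)).2 < H 0 (c (b, I')).2 := by
      rcases cw_order (hH := hH) (hm0 := hm0) hpos with ⟨h1, _⟩ | ⟨_, h1⟩
      · exact absurd hbun h1
      · exact h1
    obtain ⟨b₀, c1, c2, c3, c4⟩ := Y_role2 (H := H) (z := z) (kP := kP) hE hbun ht (c := 1)
      (d := 0) (by norm_num) (p := p) (by omega) (by omega)
    have hUp := hB.disp hZ (hP.clk t ht) hp c3 c4
    have h3 := hJ2 b (I / m) _ _ (hc2 (b, I) hu) h0 ⟨kP t, hP.clk t ht, hUp⟩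
    rw [hsnd (b, I), hsnd (b, I')] at h3
    dsimp only at h3
    rw [Nat.div_add_mod', hq, Nat.div_add_mod'] at h3
    exact hJ h3
  · intro τ hτ
    exact hτ
  · intro τ τ' h _ _ _ _ _
    exact h

end comp

end LevelPoly
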