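import Pool.Agent.LevelPoly.Bundle

/-!
# Full blocks
-/

namespace LevelPoly

open LevelLat

variable {Q : Type} [Fintype Q] {L C : ℕ} {q₀ σ D : ℕ} {s : Q → ℤ} {A : Q → Q → ℤ}
  {h : Q × Fin L → ℕ}

/-- in a full block the rank is the key -/
theorem full_rank (hA : Lat L q₀ σ D s A h) {l c : ℕ} (hc : ∀ q, |s q * l| ≤ c * L)
    {e : Q × Fin (C * L)} (h1 : (c : ℤ) ≤ px s l e / L) (h2 : px s l e / L + c < C) :
    (rk (key hA.L0 s h l) e : ℤ) = key hA.L0 s h l e := by
  have hL : (0 : ℤ) < L := by exact_mod_cast hA.L0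
  set F := px s l e / L with hF
  set r := h (e.1, rl hA.L0 (px s l e)) with hr
  choose c' hc'1 hc'2 using fun q' => exists_cut (f := fun z => h (q', z)) (hA.o3 q') r
  have hrange : ∀ q', 0 ≤ F * L - s q' * l + c' q' ∧ F * L - s q' * l + c' q' ≤ ((C * L : ℕ) : ℤ) := by
    intro q'
    have a1 := abs_le.1 (hc q')
    have a2 : (c : ℤ) * L ≤ F * L := mul_le_mul_of_nonneg_right h1 hL.le
    have a3 : (F + c + 1) * L ≤ C * L := mul_le_mul_of_nonneg_right (by omega) hL.le
    have a4 : (c' q' : ℤ) ≤ L := by exact_mod_cast hc'1 q'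
    rw [add_mul, add_mul, one_mul] at a3
    push_cast
    constructor
    · omega
    · omega
  have key1 : ∀ q' : Q, ∀ y' : Fin (C * L), key hA.L0 s h l (q', y') < key hA.L0 s h l e ↔
      ((y' : ℕ) : ℤ) < F * L - s q' * l + c' q' := by
    intro q' y'
    rw [key_lt_iff hA, ← hF, ← hr]
    have e1 : px s l ((q', y') : Q × Fin (C * L)) = (y' : ℕ) + s q' * l := rfl
    dsimp only
    rw [e1]
    set x' : ℤ := (y' : ℕ) + s q' * l with hx'
    have e2 : ((y' : ℕ) : ℤ) = x' - s q' * l := by omega
    rw [e2]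
    have d1 := Int.mul_ediv_add_emod x' (L : ℤ)
    have d2 := Int.emod_nonneg x' (b := (L : ℤ)) (by omega)
    have d3 := Int.emod_lt_of_pos x' hL
    rw [mul_comm] at d1
    constructor
    · rintro (h3 | ⟨h3, h4⟩)
      · have : (x' / L + 1) * L ≤ F * L := mul_le_mul_of_nonneg_right (by omega) hL.le
        rw [add_mul, one_mul] at this
        omega
      · have h5 := (hc'2 q' (rl hA.L0 x')).1 h4
        have h6 := rl_cast hA.L0 x'
        rw [h3] at d1
        omega
    · intro h3
      rcases lt_or_ge x' (F * L) with h4 | h4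
      · left
        by_contra hcon
        push Not at hcon
        have : F * L ≤ x' / L * L := mul_le_mul_of_nonneg_right hcon hL.le
        omega
      · right
        have a4 : (c' q' : ℤ) ≤ L := by exact_mod_cast hc'1 q'
        have h5 : x' / L = F := by
          apply le_antisymm
          · by_contra hcon
            push Not at hcon
            have : (F + 1) * L ≤ x' / L * L := mul_le_mul_of_nonneg_right (by omega) hL.le
            rw [add_mul, one_mul] at this
            omega
          · by_contra hcon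
            push Not at hcon
            have : (x' / L + 1) * L ≤ F * L := mul_le_mul_of_nonneg_right (by omega) hL.le
            rw [add_mul, one_mul] at this
            omega
        refine ⟨h5, (hc'2 q' (rl hA.L0 x')).2 ?_⟩
        have h6 := rl_cast hA.L0 x'
        rw [h5] at d1
        omega
  have key2 : ∀ q' : Q, ∑ y' : Fin (C * L),
      (if key hA.L0 s h l (q', y') < key hA.L0 s h l e then (1 : ℤ) else 0) =
      F * L - s q' * l + c' q' := by
    intro q'
    have := sum_lt (hrange q').1 (hrange q').2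
    rw [← this]
    refine Finset.sum_congr rfl (fun y' _ => ?_)
    congr 1
    rw [eq_iff_iff]
    exact key1 q' y'
  have key3 : ∀ q' : Q, (c' q' : ℤ) = ∑ z : Fin L, (if h (q', z) < r then (1 : ℤ) else 0) := by
    intro q'
    have := sum_lt (β := L) (c := c' q') (by omega) (by exact_mod_cast hc'1 q')
    rw [← this]
    refine Finset.sum_congr rfl (fun z _ => ?_)
    congr 1
    rw [eq_iff_iff, hc'2 q' z]
    exact Nat.cast_lt
  have hr' : r ≤ Fintype.card (Q × Fin L) := by
    have := hA.lt (e.1, rl hA.L0 (px s l e))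
    rw [Fintype.card_prod, Fintype.card_fin]
    omega
  have key4 : ∑ q' : Q, (c' q' : ℤ) = r := by
    rw [Finset.sum_congr rfl (fun q' _ => key3 q'), ← Fintype.sum_prod_type
      (f := fun f : Q × Fin L => if h f < r then (1 : ℤ) else 0)]
    exact card_lt hA.inj (fun f => by
      rw [Fintype.card_prod, Fintype.card_fin]
      exact hA.lt f) hr'
  have h3 : (rk (key hA.L0 s h l) e : ℤ) = ∑ q' : Q, (F * L - s q' * l + c' q') := by
    unfold rk
    rw [Finset.card_filter]
    push_cast
    rw [Fintype.sum_prod_type]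
    exact Finset.sum_congr rfl (fun q' _ => key2 q')
  have h4 : ∑ q' : Q, s q' * (l : ℤ) = 0 := by rw [← Finset.sum_mul, hA.sum, zero_mul]
  rw [h3, Finset.sum_add_distrib, Finset.sum_sub_distrib, key4, h4, Finset.sum_const,
    Finset.card_univ]
  unfold key
  rw [← hF, ← hr]
  simp only [nsmul_eq_mul]
  push_cast
  ring

theorem card_bundle : Fintype.card (Q × Fin (C * L)) = C * (Fintype.card Q * L) := by
  rw [Fintype.card_prod, Fintype.card_fin]
  ring

/-- a line whose rank lies in the range of a full block lies in this block -/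
theorem of_rank (hA : Lat L q₀ σ D s A h) {l c F : ℕ} (hc : ∀ q, |s q * l| ≤ c * L)
    (h1 : c ≤ F) (h2 : F + c < C) {e : Q × Fin (C * L)}
    (h3 : F * (Fintype.card Q * L) ≤ rk (key hA.L0 s h l) e)
    (h4 : rk (key hA.L0 s h l) e < F * (Fintype.card Q * L) + Fintype.card Q * L) :
    px s l e / L = F ∧ rk (key hA.L0 s h l) e =
      F * (Fintype.card Q * L) + h (e.1, rl hA.L0 (px s l e)) := by
  have hL : (0 : ℤ) < L := by exact_mod_cast hA.L0
  set g := Fintype.card Q * L with hg
  obtain ⟨r, hr⟩ := Nat.exists_eq_add_of_le h3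
  have hrg : r < Fintype.card (Q × Fin L) := by
    rw [Fintype.card_prod, Fintype.card_fin]
    omega
  obtain ⟨⟨q, z⟩, hf⟩ := surj_of_inj hA.inj (fun f => by
      rw [Fintype.card_prod, Fintype.card_fin]
      exact hA.lt f) hrg
  have a1 := abs_le.1 (hc q)
  have hcF : (c : ℤ) * L ≤ F * L := mul_le_mul_of_nonneg_right (by exact_mod_cast h1) hL.le
  have hFC : ((F : ℤ) + c + 1) * L ≤ C * L :=
    mul_le_mul_of_nonneg_right (by exact_mod_cast h2) hL.le
  rw [add_mul, add_mul, one_mul] at hFC
  have hz : ((z : ℕ) : ℤ) < L := by exact_mod_cast z.2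
  have hy0 : 0 ≤ (F : ℤ) * L + (z : ℕ) - s q * l := by omega
  have hy1 : (F : ℤ) * L + (z : ℕ) - s q * l < ((C * L : ℕ) : ℤ) := by
    push_cast
    omega
  let e₀ : Q × Fin (C * L) := (q, ⟨((F : ℤ) * L + (z : ℕ) - s q * l).toNat, by omega⟩)
  have p0 : px s l e₀ = F * L + (z : ℕ) := by
    show ((((F : ℤ) * L + (z : ℕ) - s q * l).toNat : ℕ) : ℤ) + s q * l = _
    omega
  have p1 : px s l e₀ / L = F := by
    rw [p0, mul_comm, Int.mul_add_ediv_left _ _ (by omega), Int.ediv_eq_zero_of_lt (by omega) hz,
      add_zero]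
  have p2 : px s l e₀ % L = (z : ℕ) := by
    rw [p0, mul_comm, Int.mul_add_emod_self_left, Int.emod_eq_of_lt (by omega) hz]
  have p3 : rl hA.L0 (px s l e₀) = z := by
    apply Fin.ext
    have := rl_cast hA.L0 (px s l e₀)
    rw [p2] at this
    exact_mod_cast this
  have p4 : (e₀.1, rl hA.L0 (px s l e₀)) = (q, z) := by rw [p3]
  have hfull := full_rank hA hc (e := e₀) (by rw [p1]; exact_mod_cast h1)
    (by rw [p1]; exact_mod_cast h2)
  have p5 : key hA.L0 s h l e₀ = F * (g : ℤ) + r := by
    unfold key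
    rw [p1, p4, hf]
  rw [p5] at hfull
  have p6 : rk (key hA.L0 s h l) e₀ = rk (key hA.L0 s h l) e := by
    rw [hr]
    exact_mod_cast hfull
  have p7 := rk_inj (key_inj hA l) p6
  rw [← p7, p1, p4, hf]
  exact ⟨rfl, by rw [p7, hr]⟩

/-- the position in the pattern and the role in the block -/
theorem block (hA : Lat L q₀ σ D s A h) {M l k : ℕ} (hl : l < D) (hk : k < M)
    (hC : C = M + 2 * q₀) {b : Bool} {e : Q × Fin (C * L)}
    (h1 : q₀ * (Fintype.card Q * L) + k * (Fintype.card Q * L) ≤ R (key hA.L0 s h) b l e)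
    (h2 : R (key hA.L0 s h) b l e < q₀ * (Fintype.card Q * L) + k * (Fintype.card Q * L) +
      Fintype.card Q * L) :
    px s l e / L = (if b then ((q₀ + k : ℕ) : ℤ) else ((C - 1 - q₀ - k : ℕ) : ℤ)) ∧
    R (key hA.L0 s h) b l e - (q₀ * (Fintype.card Q * L) + k * (Fintype.card Q * L)) =
      (if b then h (e.1, rl hA.L0 (px s l e)) else
        Fintype.card Q * L - 1 - h (e.1, rl hA.L0 (px s l e))) := by
  set g := Fintype.card Q * L with hg
  have hcard : Fintype.card (Q × Fin (C * L)) = C * g := card_bundle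
  have hlt := hA.lt (e.1, rl hA.L0 (px s l e))
  rw [← hg] at hlt
  cases b
  · simp only [Bool.false_eq_true, if_false]
    have hR : R (key hA.L0 s h) false l e = C * g - 1 - rk (key hA.L0 s h l) e := by
      unfold R
      rw [hcard]
      simp
    rw [hR] at h1 h2 ⊢
    have hrk := rk_lt_card (H := key hA.L0 s h l) e
    rw [hcard] at hrk
    obtain ⟨F, hF⟩ : ∃ F, C = F + (q₀ + k + 1) := ⟨C - (q₀ + k + 1), by omega⟩
    have e1 : C * g = F * g + (q₀ * g + k * g + g) := by rw [hF]; ring
    have e2 : C - 1 - q₀ - k = F := by omega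
    rw [e1] at h1 h2 hrk ⊢
    obtain ⟨a1, a2⟩ := of_rank hA (F := F) (hA.bd l hl) (by omega) (by omega) (e := e)
      (by rw [← hg]; omega) (by rw [← hg]; omega)
    rw [← hg] at a2
    rw [e2]
    exact ⟨a1, by omega⟩
  · simp only [if_true]
    have hR : R (key hA.L0 s h) true l e = rk (key hA.L0 s h l) e := by
      unfold R
      simp
    rw [hR] at h1 h2 ⊢
    have e1 : (q₀ + k) * g = q₀ * g + k * g := by ring
    obtain ⟨a1, a2⟩ := of_rank hA (F := q₀ + k) (hA.bd l hl) (by omega) (by omega) (e := e)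
      (by rw [← hg, e1]; omega) (by rw [← hg, e1]; omega)
    rw [← hg, e1] at a2
    exact ⟨a1, by omega⟩

/-- the bundle satisfies the conditions of the composition theorem -/
theorem bun (hA : Lat L q₀ σ D s A h) {M : ℕ} (hC : C = M + 2 * q₀) :
    Bun (key (C := C) hA.L0 s h) D
      (PJ M (q₀ * (Fintype.card Q * L)) (Fintype.card Q * L) (JL (Fintype.card Q * L) s A h))
      (fun l e e' => Rev s A e.1 e'.1 (px s l e - px s l e')) := by
  refine ⟨key_inj hA, ?_, ?_, ?_⟩
  · rintro l hl b e e' hkey ⟨k, hk, k1, k2, k3, k4, ⟨f, f', f1, f2, f3⟩⟩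
    obtain ⟨a1, a2⟩ := block hA hl hk hC k1 k2
    obtain ⟨a3, a4⟩ := block hA hl hk hC k3 k4
    rw [a2, a4] at f3
    have b1 := hA.lt (e.1, rl hA.L0 (px s l e))
    have b2 := hA.lt (e'.1, rl hA.L0 (px s l e'))
    have b3 := hA.lt f
    have b4 := hA.lt f'
    have hdiv : px s l e / L = px s l e' / L := a1.trans a3.symm
    have hlt : h (e.1, rl hA.L0 (px s l e)) < h (e'.1, rl hA.L0 (px s l e')) := by
      rw [key_lt_iff hA] at hkey
      rcases hkey with hkey | ⟨_, hkey⟩
      · omega
      · exact hkey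
    have e1 : h (e.1, rl hA.L0 (px s l e)) = h f ∧ h (e'.1, rl hA.L0 (px s l e')) = h f' := by
      cases b
      · simp only [Bool.false_eq_true, if_false] at f3
        omega
      · simp only [if_true] at f3
        omega
    have e2 := hA.inj e1.1
    have e3 := hA.inj e1.2
    rw [← e2, ← e3] at f2
    dsimp only at f2 ⊢
    rw [rl_cast, rl_cast, ← mod_sub hdiv] at f2
    exact f2
  · intro l l' e e' hll hl' h0 hUp
    have hs : s e'.1 < s e.1 := by
      by_contra hc
      push Not at hc
      rcases hUp with hUp | hUp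
      · have := stay hA (l := l) hc h0
        omega
      · exact absurd hUp.1 (by omega)
    have hd : A e.1 e'.1 < px s l e - px s l e' + (s e.1 - s e'.1) := by
      rcases hUp with hUp | hUp
      · exact k1 hA hs hUp
      · exact hUp.2
    have h4 := px_le hll hs (e := e) (e' := e')
    constructor
    · rcases lt_trichotomy (key hA.L0 s h l' e') (key hA.L0 s h l' e) with h5 | h5 | h5
      · exact h5
      · exfalso
        have := key_inj hA l' h5
        subst this
        exact lt_irrefl _ h0
      · exfalso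
        have := k2 hA hs h5
        omega
    · intro hr
      exact absurd hr.1 (by omega)
  · intro l e e' hl h0 h1 hr
    have := stay hA (l := l) hr.1.le h0
    omega

end LevelPoly
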