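import Pool.Agent.LevelPoly.Step2
import Pool.Agent.LevelLat.Base
import Pool.Agent.LevelLat.Final

/-!
# The iteration and the polynomial lower bound
-/

namespace LevelPoly

open LevelLat

/-- the trivial lattice data -/
theorem lat_one (q₀ σ D : ℕ) : Lat (Q := Unit) 1 q₀ σ D (fun _ => 0) (fun _ _ => 1)
    (fun _ => 0) := by
  refine ⟨by norm_num, ?_, ?_, ?_, ?_, ?_, ?_, ?_, ?_, ?_, ?_, ?_⟩
  · rintro ⟨a, b⟩ ⟨c, d⟩ _
    ext1
    · rfl
    · exact Subsingleton.elim _ _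
  · intro _
    simp
  · simp
  · intro l _ q
    simp
  · intro q
    simp
  · intro q q'
    norm_num
  · intro q q' h
    exact absurd h (lt_irrefl _)
  · intro q q' _
    rfl
  · intro q q' y y' h
    exact absurd h (lt_irrefl _)
  · intro q q' y y' h
    exact absurd h (lt_irrefl _)
  · intro q y y' h
    rw [Subsingleton.elim y y'] at h
    exact absurd h (lt_irrefl _)

theorem iter {gP TP D C M W q₀ σ : ℕ} {v : Fin gP → ℤ} (hPZ : HasZig gP TP D (fun _ _ => True))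
    (hP : Par gP C D q₀ σ W v) (hC : C = M + 2 * q₀) (hM : 0 < M) (hTP : 0 < TP) (k : ℕ) :
    ∃ (Q : Type) (_ : Fintype Q) (L T : ℕ) (s : Q → ℤ) (A : Q → Q → ℤ) (h : Q × Fin L → ℕ),
      Lat L q₀ σ D s A h ∧ Fintype.card Q * L = (gP * C) ^ k ∧ (TP * M) ^ k ≤ T ∧
      HasZig (Fintype.card Q * L) T T (JL (Fintype.card Q * L) s A h) := by
  induction k with
  | zero =>
    refine ⟨Unit, inferInstance, 1, 1, _, _, _, lat_one q₀ σ D, by simp, by simp, ?_⟩
    have : Fintype.card Unit * 1 = 1 := by simp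
    rw [this]
    exact hasZig_one.mono le_rfl (fun _ _ _ _ h => h.elim)
  | succ k ih =>
    obtain ⟨Q, hQ, L, T, s, A, h, h1, h2, h3, h4⟩ := ih
    have hT : 0 < T := lt_of_lt_of_le (by positivity) h3
    have hMT : 0 < M * T := by positivity
    refine ⟨Fin gP × Q, inferInstance, C * L, _, _, _, _, lat' h1 hP, ?_, ?_,
      step h1 hP hC hMT h4 hPZ⟩
    · rw [Fintype.card_prod, Fintype.card_fin, pow_succ, ← h2]
      ring
    · rw [pow_succ]
      calc (TP * M) ^ k * (TP * M) ≤ T * (TP * M) := Nat.mul_le_mul_right _ h3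
        _ = TP * (M * T) := by ring
        _ ≤ _ := Nat.mul_le_mul_left _ (by omega)

/-- the systems -/
theorem iter' {gP TP D C M W q₀ σ : ℕ} {v : Fin gP → ℤ} (hPZ : HasZig gP TP D (fun _ _ => True))
    (hP : Par gP C D q₀ σ W v) (hC : C = M + 2 * q₀) (hM : 0 < M) (hTP : 0 < TP) (k : ℕ) :
    ∃ T, (TP * M) ^ k ≤ T ∧ HasZig ((gP * C) ^ k) T T (fun _ _ => True) := by
  obtain ⟨Q, hQ, L, T, s, A, h, h1, h2, h3, h4⟩ := iter hPZ hP hC hM hTP k
  rw [h2] at h4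
  exact ⟨T, h3, h4.mono le_rfl (fun _ _ _ _ _ => trivial)⟩

/-- the speeds for four classes -/
def v4 (b : Fin 4) : ℤ := (2 * (b : ℕ) - 3) * 629

theorem par4 : Par 4 600 9 26 29 1887 v4 := by
  refine ⟨by norm_num, by norm_num, ?_, ?_, ?_, by norm_num, by norm_num⟩
  · decide
  · decide
  · decide

theorem sys4 (k : ℕ) : ∃ T, 4932 ^ k ≤ T ∧ HasZig (2400 ^ k) T T (fun _ _ => True) :=
  iter' hasZig_base par4 (M := 548) (by norm_num) (by norm_num) (by norm_num) k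

open Real LevelLower

theorem good4 (k : ℕ) : ∃ δ, Good (log (2 * 2400 ^ k)) (k * log (4932 / 2400) - log 2) δ := by
  obtain ⟨T, h1, h2⟩ := sys4 k
  have hT : 0 < T := lt_of_lt_of_le (by positivity) h1
  refine ⟨log T, 2400 ^ k, T, T, h2, by positivity, hT, hT, ?_, ?_, le_rfl⟩
  · push_cast
    exact le_rfl
  · have h3 : (4932 : ℝ) ^ k ≤ T := by exact_mod_cast h1
    refine le_trans (le_of_eq ?_) h3
    rw [Real.exp_sub, Real.exp_log (by norm_num), ← Real.log_pow, Real.exp_log (by positivity),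
      div_pow]
    push_cast
    field_simp

/-- **Polynomial lower bound.** -/
theorem main_poly : ∃ n₀ : ℕ, ∀ n ≥ n₀, ∀ s ≥ 1, (n : ℝ) ^ (12 / 11 : ℝ) ≤ Psi s n := by
  -- the gain
  set β : ℝ := 4932 ^ 11 / 2400 ^ 12 with hβ
  have hβ1 : 1 < β := by
    rw [hβ]
    norm_num
  obtain ⟨k₀, hk₀⟩ : ∃ k₀ : ℕ, 4 * 4800 ≤ β ^ k₀ := by
    obtain ⟨k, hk⟩ := pow_unbounded_of_one_lt (4 * 4800) hβ1
    exact ⟨k, hk.le⟩
  refine ⟨2 * 2400 ^ (11 * k₀), ?_⟩
  intro n hn s hs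
  have hn0 : 0 < n := lt_of_lt_of_le (by positivity) hn
  have hnR : (0 : ℝ) < n := by exact_mod_cast hn0
  -- the level
  set k := Nat.log 2400 (n / 2) with hk
  have hn2 : n / 2 ≠ 0 := by
    have : 1 ≤ 2400 ^ (11 * k₀) := Nat.one_le_pow _ _ (by norm_num)
    omega
  have hk1 : 2400 ^ k ≤ n / 2 := Nat.pow_log_le_self 2400 hn2
  have hk2 : n / 2 < 2400 ^ (k + 1) := Nat.lt_pow_succ_log_self (by norm_num) _
  have hk3 : 11 * k₀ ≤ k := by
    rw [hk]
    apply Nat.le_log_of_pow_le (by norm_num)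
    omega
  have hk4 : (2 * 2400 ^ k : ℝ) ≤ n := by
    have : 2 * 2400 ^ k ≤ n := by omega
    exact_mod_cast this
  have hk5 : (n : ℝ) < 4800 * 2400 ^ k := by
    have : n < 4800 * 2400 ^ k := by
      rw [pow_succ] at hk2
      omega
    exact_mod_cast this
  obtain ⟨δ, hG⟩ := good4 k
  have hb := level_bound hG hs (by rwa [Real.exp_log (by positivity)])
  refine le_trans ?_ hb
  rw [Real.exp_sub, Real.exp_log (by norm_num), ← Real.log_pow, Real.exp_log (by positivity)]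
  -- compare eleventh powers
  have hgoal : (n : ℝ) ^ (12 / 11 : ℝ) ≤ n / 2 * ((4932 / 2400) ^ k / 2) := by
    have h11 : (0 : ℝ) ≤ n / 2 * ((4932 / 2400) ^ k / 2) := by positivity
    apply le_of_pow_le_pow_left₀ (n := 11) (by norm_num) h11
    rw [← Real.rpow_natCast, ← Real.rpow_mul hnR.le]
    have e0 : (12 / 11 : ℝ) * ((11 : ℕ) : ℝ) = ((12 : ℕ) : ℝ) := by norm_num
    rw [e0, Real.rpow_natCast]
    have e1 : ((n : ℝ) / 2 * ((4932 / 2400 : ℝ) ^ k / 2)) ^ 11 =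
        n ^ 11 * ((β * 2400) ^ k / 4 ^ 11) := by
      have e2 : (β * 2400 : ℝ) = (4932 / 2400) ^ 11 := by
        rw [hβ]
        norm_num
      rw [e2, mul_pow, div_pow, div_pow, ← pow_mul, ← pow_mul, mul_comm k 11]
      norm_num
      ring
    rw [e1]
    have e3 : (4 ^ 11 * 4800 : ℝ) ≤ β ^ k := by
      calc (4 ^ 11 * 4800 : ℝ) ≤ (4 * 4800) ^ 11 := by norm_num
        _ ≤ (β ^ k₀) ^ 11 := pow_le_pow_left₀ (by norm_num) hk₀ 11
        _ = β ^ (11 * k₀) := by rw [← pow_mul, mul_comm]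
        _ ≤ β ^ k := pow_le_pow_right₀ hβ1.le hk3
    have e4 : (n : ℝ) ≤ (β * 2400) ^ k / 4 ^ 11 := by
      rw [le_div_iff₀ (by positivity), mul_pow]
      calc (n : ℝ) * 4 ^ 11 ≤ 4800 * 2400 ^ k * 4 ^ 11 := by gcongr
        _ = (4 ^ 11 * 4800) * 2400 ^ k := by ring
        _ ≤ β ^ k * 2400 ^ k := by gcongr
    calc (n : ℝ) ^ 12 = n ^ 11 * n := by ring
      _ ≤ _ := by gcongr
  exact hgoal

end LevelPoly
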