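import Pool.Agent.LevelPoly.Full

/-!
# The recursion step
-/

namespace LevelPoly

open LevelLat

theorem div_uniq {a b m r r' : ℕ} (hr : r < m) (hr' : r' < m) (h : a * m + r = b * m + r') :
    a = b ∧ r = r' := by
  have h1 : (m * a + r) / m = (m * b + r') / m := by
    rw [mul_comm m a, mul_comm m b, h]
  rw [Nat.mul_add_div (by omega), Nat.mul_add_div (by omega), Nat.div_eq_of_lt hr,
    Nat.div_eq_of_lt hr'] at h1
  have h2 : a = b := by omega
  rw [h2] at h
  exact ⟨h2, by omega⟩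

section step

variable {Q : Type} [Fintype Q] {L C gP D W : ℕ} {q₀ σ : ℕ} {s : Q → ℤ} {A : Q → Q → ℤ}
  {h : Q × Fin L → ℕ} {v : Fin gP → ℤ}

/-- new speeds -/
def s' (L D : ℕ) (v : Fin gP → ℤ) (s : Q → ℤ) (c : Fin gP × Q) : ℤ := v c.1 * L + D * s c.2

/-- new contact lengths -/
def A' (C L : ℕ) (A : Q → Q → ℤ) (c c' : Fin gP × Q) : ℤ :=
  if c.1 = c'.1 then A c.2 c'.2 else ((C * L : ℕ) : ℤ)

/-- new vertical order -/
noncomputable def h' (hA : Lat L q₀ σ D s A h) (e : (Fin gP × Q) × Fin (C * L)) : ℕ :=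
  (gP - 1 - e.1.1) * (C * (Fintype.card Q * L)) + rk (key hA.L0 s h 0) (e.1.2, e.2)

/-- the conditions on the parameters -/
structure Par (gP C D q₀ σ W : ℕ) (v : Fin gP → ℤ) : Prop where
  D0 : 0 < D
  C0 : 0 < C
  sum : ∑ b, v b = 0
  gap : ∀ b b', b' < b → 2 * (C : ℤ) + 2 * σ ≤ v b - v b'
  bd : ∀ b, |v b| ≤ W
  p1 : (W + σ) * (D - 1) ≤ q₀ * C
  p2 : (W + σ) * D ≤ σ * C

variable (hA : Lat L q₀ σ D s A h) (hP : Par gP C D q₀ σ W v)

include hA hP

omit hP in
theorem rk_lt' (q : Q) (y : Fin (C * L)) :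
    rk (key hA.L0 s h 0) ((q, y) : Q × Fin (C * L)) < C * (Fintype.card Q * L) := by
  have := rk_lt_card (H := key hA.L0 s h 0) ((q, y) : Q × Fin (C * L))
  rwa [card_bundle] at this

theorem s'_gap {c c' : Fin gP × Q} (hb : c'.1 < c.1) :
    2 * ((C * L : ℕ) : ℤ) ≤ s' L D v s c - s' L D v s c' := by
  have h1 := hP.gap _ _ hb
  have h2 := abs_le.1 (hA.bd' c.2)
  have h3 := abs_le.1 (hA.bd' c'.2)
  have h4 : (2 * (C : ℤ) + 2 * σ) * L ≤ (v c.1 - v c'.1) * L :=
    mul_le_mul_of_nonneg_right h1 (by positivity)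
  unfold s'
  push_cast
  linarith [h2.1, h3.2]

theorem s'_lt {c c' : Fin gP × Q} (hs : s' L D v s c' < s' L D v s c) :
    (c.1 = c'.1 ∧ s c'.2 < s c.2) ∨ c'.1 < c.1 := by
  rcases lt_trichotomy c.1 c'.1 with h1 | h1 | h1
  · have := s'_gap hA hP h1
    push_cast at this
    have : (0 : ℤ) ≤ C * L := by positivity
    omega
  · left
    refine ⟨h1, ?_⟩
    unfold s' at hs
    rw [h1] at hs
    have h2 : (D : ℤ) * s c'.2 < D * s c.2 := by omega
    exact lt_of_mul_lt_mul_left h2 (by positivity)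
  · exact Or.inr h1

omit hA [Fintype Q] in
theorem s'_same {c c' : Fin gP × Q} (h1 : c.1 = c'.1) (h2 : s c'.2 < s c.2) :
    s c.2 - s c'.2 ≤ s' L D v s c - s' L D v s c' := by
  unfold s'
  rw [h1]
  have : 1 * (s c.2 - s c'.2) ≤ (D : ℤ) * (s c.2 - s c'.2) :=
    mul_le_mul_of_nonneg_right (by exact_mod_cast hP.D0) (by omega)
  linarith

/-- the new data are lattice data -/
theorem lat' : Lat (C * L) q₀ σ D (s' L D v s) (A' C L A) (h' (gP := gP) (C := C) hA) := by
  have hL := hA.L0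
  have hC := hP.C0
  have hCL : 0 < C * L := by positivity
  have hy : ∀ y : Fin (C * L), ((y : ℕ) : ℤ) < ((C * L : ℕ) : ℤ) := fun y => by
    exact_mod_cast y.2
  refine ⟨hCL, ?_, ?_, ?_, ?_, ?_, ?_, ?_, ?_, ?_, ?_, ?_⟩
  · rintro ⟨⟨b, q⟩, y⟩ ⟨⟨b', q'⟩, y'⟩ heq
    unfold h' at heq
    dsimp only at heq
    have r1 := rk_lt' (C := C) hA q y
    have r2 := rk_lt' (C := C) hA q' y'
    obtain ⟨e1, e0⟩ := div_uniq r1 r2 heq
    have e2 : b = b' := by
      apply Fin.ext
      have := b.2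
      have := b'.2
      omega
    have e3 := rk_inj (key_inj hA 0) e0
    have e4 := (Prod.mk.inj e3).1
    have e5 := (Prod.mk.inj e3).2
    rw [e2, e4, e5]
  · rintro ⟨⟨b, q⟩, y⟩
    unfold h'
    dsimp only
    have r1 := rk_lt' (C := C) hA q y
    rw [Fintype.card_prod, Fintype.card_fin]
    set m := C * (Fintype.card Q * L) with hm
    have : gP * Fintype.card Q * (C * L) = gP * m := by rw [hm]; ring
    rw [this]
    calc (gP - 1 - (b : ℕ)) * m + _ < (gP - 1 - (b : ℕ)) * m + m := by omega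
      _ = (gP - 1 - (b : ℕ) + 1) * m := by ring
      _ ≤ gP * m := Nat.mul_le_mul_right _ (by have := b.2; omega)
  · rw [Fintype.sum_prod_type]
    unfold s'
    dsimp only
    have h1 : ∀ b : Fin gP, ∑ q : Q, (v b * (L : ℤ) + D * s q) = v b * (L * Fintype.card Q) := by
      intro b
      have h0 : ∑ q : Q, (D : ℤ) * s q = 0 := by rw [← Finset.mul_sum, hA.sum, mul_zero]
      rw [Finset.sum_add_distrib, h0, Finset.sum_const, Finset.card_univ]
      simp only [nsmul_eq_mul]
      ring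
    rw [Finset.sum_congr rfl (fun b _ => h1 b), ← Finset.sum_mul, hP.sum, zero_mul]
  · rintro l hl ⟨b, q⟩
    unfold s'
    dsimp only
    have h1 : |v b * (L : ℤ) * l| ≤ W * L * (D - 1 : ℕ) := by
      rw [abs_mul, abs_mul, abs_of_nonneg (by positivity : (0 : ℤ) ≤ L),
        abs_of_nonneg (by positivity : (0 : ℤ) ≤ l)]
      have := hP.bd b
      have hl' : (l : ℤ) ≤ ((D - 1 : ℕ) : ℤ) := by
        have : l ≤ D - 1 := by omega
        exact_mod_cast this
      gcongr
    have h2 : |(D : ℤ) * s q * l| ≤ σ * L * (D - 1 : ℕ) := by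
      rw [abs_mul, abs_of_nonneg (by positivity : (0 : ℤ) ≤ l)]
      have := hA.bd' q
      rw [mul_comm (s q)] at this
      have hl' : (l : ℤ) ≤ ((D - 1 : ℕ) : ℤ) := by
        have : l ≤ D - 1 := by omega
        exact_mod_cast this
      gcongr
    have h3 : ((W + σ) * (D - 1 : ℕ) : ℤ) ≤ q₀ * C := by exact_mod_cast hP.p1
    have h4 : ((W + σ) * (D - 1 : ℕ) : ℤ) * L ≤ q₀ * C * L :=
      mul_le_mul_of_nonneg_right h3 (by positivity)
    have h5 : (v b * (L : ℤ) + D * s q) * l = v b * L * l + D * s q * l := by ring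
    rw [h5]
    refine (abs_add_le _ _).trans ?_
    push_cast
    calc _ ≤ (W : ℤ) * L * (D - 1 : ℕ) + σ * L * (D - 1 : ℕ) := add_le_add h1 h2
      _ = ((W + σ) * (D - 1 : ℕ) : ℤ) * L := by ring
      _ ≤ _ := h4
      _ = _ := by ring
  · rintro ⟨b, q⟩
    unfold s'
    dsimp only
    have h1 : |v b * (L : ℤ) * D| ≤ W * L * D := by
      rw [abs_mul, abs_mul, abs_of_nonneg (by positivity : (0 : ℤ) ≤ L),
        abs_of_nonneg (by positivity : (0 : ℤ) ≤ D)]
      have := hP.bd b
      gcongr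
    have h2 : |(D : ℤ) * s q * D| ≤ σ * L * D := by
      rw [abs_mul, abs_of_nonneg (by positivity : (0 : ℤ) ≤ D)]
      have := hA.bd' q
      rw [mul_comm (s q)] at this
      gcongr
    have h3 : ((W + σ) * D : ℤ) ≤ σ * C := by exact_mod_cast hP.p2
    have h4 : ((W + σ) * D : ℤ) * L ≤ σ * C * L :=
      mul_le_mul_of_nonneg_right h3 (by positivity)
    have h5 : (v b * (L : ℤ) + D * s q) * D = v b * L * D + D * s q * D := by ring
    rw [h5]
    refine (abs_add_le _ _).trans ?_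
    push_cast
    calc _ ≤ (W : ℤ) * L * D + σ * L * D := add_le_add h1 h2
      _ = ((W + σ) * D : ℤ) * L := by ring
      _ ≤ _ := h4
      _ = _ := by ring
  · intro c c'
    unfold A'
    split_ifs
    · exact hA.A0 _ _
    · exact_mod_cast hCL
  · intro c c' hs
    unfold A'
    rcases s'_lt hA hP hs with ⟨h1, h2⟩ | h1
    · rw [if_pos h1]
      have h3 := s'_same (L := L) hP h1 h2
      have h4 := hA.sA _ _ h2
      omega
    · rw [if_neg h1.ne']
      exact s'_gap hA hP h1
  · rintro ⟨b, q⟩ ⟨b', q'⟩ hs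
    have hb : b = b' := by
      rcases lt_trichotomy b b' with h1 | h1 | h1
      · have := s'_gap hA hP (c := (b', q')) (c' := (b, q)) h1
        rw [hs] at this
        omega
      · exact h1
      · have := s'_gap hA hP (c := (b, q)) (c' := (b', q')) h1
        rw [hs] at this
        omega
    subst hb
    unfold s' at hs
    dsimp only at hs
    have h2 : (D : ℤ) * s q = D * s q' := by omega
    have hD : (D : ℤ) ≠ 0 := by
      have := hP.D0
      omega
    have h3 := mul_left_cancel₀ hD h2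
    rw [hA.sd _ _ h3]
  · intro c c' y y' hs hh
    have hy1 := hy y'
    rcases s'_lt hA hP hs with ⟨h1, h2⟩ | h1
    · unfold A'
      rw [if_pos h1]
      unfold h' at hh
      dsimp only at hh
      rw [h1] at hh
      have h3 : key hA.L0 s h 0 ((c'.2, y') : Q × Fin (C * L)) <
          key hA.L0 s h 0 ((c.2, y) : Q × Fin (C * L)) := rk_lt_iff.1 (by omega)
      have h4 := k1 hA (e := ((c.2, y) : Q × Fin (C * L))) (e' := (c'.2, y')) h2 h3
      have h5 := s'_same (L := L) hP h1 h2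
      unfold px at h4
      dsimp only at h4
      push_cast at h4 ⊢
      omega
    · unfold A'
      rw [if_neg h1.ne']
      have := s'_gap hA hP h1
      omega
  · intro c c' y y' hs hh
    have hy1 := hy y
    rcases s'_lt hA hP hs with ⟨h1, h2⟩ | h1
    · unfold A'
      rw [if_pos h1]
      unfold h' at hh
      dsimp only at hh
      rw [h1] at hh
      have h3 : key hA.L0 s h 0 ((c.2, y) : Q × Fin (C * L)) <
          key hA.L0 s h 0 ((c'.2, y') : Q × Fin (C * L)) := rk_lt_iff.1 (by omega)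
      have h4 := k2 hA (e := ((c.2, y) : Q × Fin (C * L))) (e' := (c'.2, y')) h2 h3
      unfold px at h4
      dsimp only at h4
      push_cast at h4 ⊢
      omega
    · unfold A'
      rw [if_neg h1.ne']
      omega
  · intro c y y' hyy
    unfold h'
    dsimp only
    have h3 := k3 hA (l := 0) (e := ((c.2, y) : Q × Fin (C * L))) (e' := (c.2, y')) rfl hyy
    have := rk_strict h3
    omega

end step

end LevelPoly
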