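import Pool.Agent.LevelPoly.Step

/-!
# The recursion step: the exchange system
-/

namespace LevelPoly

open LevelLat

variable {Q : Type} [Fintype Q] {L C gP D W : ℕ} {q₀ σ : ℕ} {s : Q → ℤ} {A : Q → Q → ℤ}
  {h : Q × Fin L → ℕ} {v : Fin gP → ℤ}

theorem h'_div (hA : Lat L q₀ σ D s A h) (e : (Fin gP × Q) × Fin (C * L)) :
    h' (gP := gP) (C := C) hA e / (C * (Fintype.card Q * L)) = gP - 1 - e.1.1 := by
  have r1 := rk_lt' (C := C) hA e.1.2 e.2
  unfold h'
  rw [mul_comm, Nat.mul_add_div (by omega), Nat.div_eq_of_lt r1, add_zero]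

/-- roles in different bundles -/
theorem rev_of_div (hA : Lat L q₀ σ D s A h) (hP : Par gP C D q₀ σ W v)
    {e e' : (Fin gP × Q) × Fin (C * L)} (hlt : h' (gP := gP) (C := C) hA e < h' hA e')
    (hdiv : h' (gP := gP) (C := C) hA e / (C * (Fintype.card Q * L)) ≠
      h' hA e' / (C * (Fintype.card Q * L))) :
    Rev (s' L D v s) (A' C L A) e.1 e'.1 (((e.2 : ℕ) : ℤ) - (e'.2 : ℕ)) := by
  have h1 := Nat.div_le_div_right (c := C * (Fintype.card Q * L)) hlt.le
  rw [h'_div, h'_div] at h1 hdiv
  have hb : e'.1.1 < e.1.1 := by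
    rw [Fin.lt_def]
    omega
  have h2 := s'_gap hA hP hb
  have h3 : ((e'.2 : ℕ) : ℤ) < ((C * L : ℕ) : ℤ) := by exact_mod_cast e'.2.2
  have hC := hP.C0
  have hL := hA.L0
  have hCL : (0 : ℤ) < ((C * L : ℕ) : ℤ) := by
    have : 0 < C * L := by positivity
    exact_mod_cast this
  refine ⟨by omega, ?_⟩
  unfold A'
  rw [if_neg hb.ne']
  omega

theorem sub_div' {gP m I : ℕ} (hm : 0 < m) (hI : I < gP * m) :
    (gP * m - 1 - I) / m = gP - 1 - I / m := by
  have h1 := Nat.div_add_mod I m
  have h2 := Nat.mod_lt I hm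
  have h3 : I / m < gP := Nat.div_lt_of_lt_mul (by rwa [mul_comm] at hI)
  obtain ⟨k, hk⟩ : ∃ k, gP = I / m + k + 1 := ⟨gP - 1 - I / m, by omega⟩
  have h4 : gP * m = m * (I / m) + m * k + m := by
    conv_lhs => rw [hk]
    ring
  have h5 : gP * m - 1 - I = m * k + (m - 1 - I % m) := by omega
  rw [h5, Nat.mul_add_div hm, Nat.div_eq_of_lt (by omega)]
  omega

theorem step (hA : Lat L q₀ σ D s A h) (hP : Par gP C D q₀ σ W v) {M T TP : ℕ}
    (hC : C = M + 2 * q₀) (hT : 0 < M * T)
    (hB : HasZig (Fintype.card Q * L) T T (JL (Fintype.card Q * L) s A h))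
    (hPZ : HasZig gP TP D (fun _ _ => True)) :
    HasZig (Fintype.card (Fin gP × Q) * (C * L))
      (TP * (q₀ * (Fintype.card Q * L) + M * T + q₀ * (Fintype.card Q * L)))
      (TP * (q₀ * (Fintype.card Q * L) + M * T + q₀ * (Fintype.card Q * L)))
      (JL (Fintype.card (Fin gP × Q) * (C * L)) (s' L D v s) (A' C L A)
        (h' (gP := gP) (C := C) hA)) := by
  have hT1 : 1 ≤ T := by
    rcases Nat.eq_zero_or_pos T with h | h
    · rw [h] at hT
      omega
    · exact h
  have hcard : Fintype.card (Q × Fin (C * L)) = C * (Fintype.card Q * L) := card_bundle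
  have hcard' : Fintype.card (Fin gP × Q) * (C * L) = gP * (C * (Fintype.card Q * L)) := by
    rw [Fintype.card_prod, Fintype.card_fin]
    ring
  have hZ := pattern hB hT1 M (q₀ * (Fintype.card Q * L))
  have hmeq : q₀ * (Fintype.card Q * L) + M * (Fintype.card Q * L) + q₀ * (Fintype.card Q * L) =
      Fintype.card (Q × Fin (C * L)) := by
    rw [hcard, hC]
    ring
  rw [hmeq] at hZ
  have hlat := lat' hA hP
  by_cases hQ : 0 < Fintype.card Q
  swap
  · -- no tracks
    have h0 : Fintype.card Q = 0 := by omega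
    exfalso
    obtain ⟨x, k, hz⟩ := hB
    obtain ⟨u, d, hu, _⟩ := hz.exch 0 hT1
    rw [h0, zero_mul] at hu
    omega
  have hm0 : 0 < Fintype.card (Q × Fin (C * L)) := by
    rw [hcard]
    have := hP.C0
    have := hA.L0
    positivity
  rw [hcard']
  have key0 := comp (H := key (C := C) hA.L0 s h) (J' := JL (gP * (C * (Fintype.card Q * L)))
    (s' L D v s) (A' C L A) (h' (gP := gP) (C := C) hA)) hPZ hZ (bun hA hC) hm0 (by omega) ?_ ?_
  · rwa [hcard] at key0
  · rw [hcard] at hm0 ⊢
    intro b I I' hI hI' hdiv hpos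
    have hcd : Fintype.card ((Fin gP × Q) × Fin (C * L)) = gP * (C * (Fintype.card Q * L)) := by
      rw [Fintype.card_prod, Fintype.card_fin, ← hcard']
    have hsurj : ∀ r < gP * (C * (Fintype.card Q * L)), ∃ e, h' (gP := gP) (C := C) hA e = r := by
      intro r hr
      refine surj_of_inj hlat.inj (fun e => ?_) (by rw [hcd]; exact hr)
      rw [hcd, ← hcard']
      exact hlat.lt e
    cases b
    · rw [pos_mk_lt] at hpos
      have hlt : I' < I := by
        rcases hpos with h1 | h1
        · exact absurd h1.1 (by simp)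
        · exact h1.2
      obtain ⟨e, he⟩ := hsurj (gP * (C * (Fintype.card Q * L)) - 1 - I) (by omega)
      obtain ⟨e', he'⟩ := hsurj (gP * (C * (Fintype.card Q * L)) - 1 - I') (by omega)
      refine ⟨e, e', by omega, rev_of_div hA hP (by omega) ?_, Or.inr ⟨by omega, by omega⟩⟩
      rw [he, he', sub_div' hm0 hI, sub_div' hm0 hI']
      have h3 : I / (C * (Fintype.card Q * L)) < gP := Nat.div_lt_of_lt_mul (by rwa [mul_comm] at hI)
      have h4 : I' / (C * (Fintype.card Q * L)) < gP :=
        Nat.div_lt_of_lt_mul (by rwa [mul_comm] at hI')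
      omega
    · rw [pos_mk_lt] at hpos
      have hlt : I < I' := by
        rcases hpos with h1 | h1
        · exact h1.2
        · exact absurd h1.1 (by simp)
      obtain ⟨e, he⟩ := hsurj I hI
      obtain ⟨e', he'⟩ := hsurj I' hI'
      refine ⟨e, e', by omega, rev_of_div hA hP (by omega) ?_, Or.inl ⟨he.symm, he'.symm⟩⟩
      rw [he, he']
      exact hdiv
  · rintro b c e e' hc h0 ⟨l, hl, hUp⟩
    have hs : s e'.1 < s e.1 := by
      by_contra hcon
      push Not at hcon
      rcases hUp with hUp | hUp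
      · have := stay hA (l := l) hcon h0
        omega
      · exact absurd hUp.1 (by omega)
    have hd : A e.1 e'.1 < px s l e - px s l e' + (s e.1 - s e'.1) := by
      rcases hUp with hUp | hUp
      · exact k1 hA hs hUp
      · exact hUp.2
    have h4 := px_le hl hs (e := e) (e' := e')
    have h5 := px_step (s := s) 0 D e e'
    have h6 : px s 0 e - px s 0 e' = ((e.2 : ℕ) : ℤ) - (e'.2 : ℕ) := by
      unfold px
      push_cast
      ring
    rw [h6] at h5
    have hrk : rk (key hA.L0 s h 0) e < rk (key hA.L0 s h 0) e' := rk_strict h0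
    have r1 : rk (key hA.L0 s h 0) e < C * (Fintype.card Q * L) := rk_lt' (C := C) hA e.1 e.2
    have r2 : rk (key hA.L0 s h 0) e' < C * (Fintype.card Q * L) :=
      rk_lt' (C := C) hA e'.1 e'.2
    have hrev : ∀ b₀ : Fin gP, Rev (s' L D v s) (A' C L A) (b₀, e.1) (b₀, e'.1)
        (((e.2 : ℕ) : ℤ) - (e'.2 : ℕ)) := by
      intro b₀
      have h7 : s' L D v s (b₀, e.1) - s' L D v s (b₀, e'.1) = (s e.1 - s e'.1) * D := by
        unfold s'
        ring
      have h8 : 1 * (s e.1 - s e'.1) ≤ (D : ℤ) * (s e.1 - s e'.1) :=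
        mul_le_mul_of_nonneg_right (by exact_mod_cast hP.D0) (by omega)
      rw [mul_comm (D : ℤ)] at h8
      refine ⟨by omega, ?_⟩
      unfold A'
      dsimp only
      rw [if_pos rfl, h7]
      push_cast at h5
      rw [sub_zero] at h5
      omega
    rw [hcard]
    cases b
    · refine ⟨((⟨c, hc⟩, e.1), e.2), ((⟨c, hc⟩, e'.1), e'.2), ?_, hrev _, Or.inr ?_⟩
      · unfold h'
        simp only [Prod.mk.eta]
        omega
      · unfold R h'
        simp only [Bool.false_eq_true, if_false, Prod.mk.eta]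
        rw [hcard]
        obtain ⟨k, hk⟩ : ∃ k, gP = c + k + 1 := ⟨gP - 1 - c, by omega⟩
        have e1 : gP - 1 - c = k := by omega
        have e2 : gP * (C * (Fintype.card Q * L)) = c * (C * (Fintype.card Q * L)) +
            k * (C * (Fintype.card Q * L)) + C * (Fintype.card Q * L) := by
          conv_lhs => rw [hk]
          ring
        rw [e1, e2]
        constructor
        · omega
        · omega
    · refine ⟨((⟨gP - 1 - c, by omega⟩, e.1), e.2), ((⟨gP - 1 - c, by omega⟩, e'.1), e'.2), ?_,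
        hrev _, Or.inl ?_⟩
      · unfold h'
        simp only [Prod.mk.eta]
        omega
      · unfold R h'
        simp only [if_true, Prod.mk.eta]
        have e1 : gP - 1 - (gP - 1 - c) = c := by omega
        rw [e1]
        exact ⟨rfl, rfl⟩

end LevelPoly
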